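import Pool.Agent.H9.KA.Defs
import Pool.Agent.H32.Dense.EntX

/-!
# Shadings with boundedly many dead runs: the entropy form

`Liv F s e`: beyond the digit `s` the time is uniform up to a deficit `e`, given the line, the
side information and the first `s` digits of the time.  If all the blocks of digits outside
`N` given runs are live, the entropy inequality holds with the loss `(m + 1) L`, where `L` is the
total length of the runs.
-/

set_option autoImplicit false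

namespace Pool.KMX

open Finset Real
open Pool.Agent.H49.Ent Pool.Agent.H32.Dense Pool.STK Pool.KA

variable {m J : ℕ}

/-- The time is live beyond the digit `s`, up to a deficit `e`. -/
def Liv (F : Fam m J) (s : ℕ) (e : ℝ) : Prop :=
  ((J : ℝ) - s) * Real.log 2 - e ≤ CH F.p F.T (fun ω => (F.l ω, F.Z ω, F.T1 s ω))

/-- The block of digits of the time from `s` to `r` is live, up to a deficit `e`. -/
def LivB (F : Fam m J) (s r : ℕ) (e : ℝ) : Prop :=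
  ((r : ℝ) - s) * Real.log 2 - e ≤ CH F.p (F.T1 r) (fun ω => (F.l ω, F.Z ω, F.T1 s ω))

/-- `F'` is obtained from `F` by a new choice of the digits of the time beyond `r`. -/
def Rfr (F F' : Fam m J) (r : ℕ) : Prop :=
  ∃ pr : F'.Ω → F.Ω,
    (∀ ω, (open Classical in ∑ ω', if pr ω' = ω then F'.p ω' else 0) = F.p ω) ∧
    (∀ ω', F'.u ω' = F.u (pr ω')) ∧ (∀ ω', F'.d ω' = F.d (pr ω')) ∧
    (∀ ω' ω'', F'.Z ω' = F'.Z ω'' ↔ F.Z (pr ω') = F.Z (pr ω'')) ∧
    ∀ ω', F'.T1 r ω' = F.T1 r (pr ω')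

/-- The filling lemma. -/
def FIL (m : ℕ) : Prop :=
  ∀ E > 0, ∃ θ > 0, ∃ J₀ : ℕ, ∀ J ≥ J₀, ∀ (F : Fam m J) (r s : ℕ), r ≤ s → s ≤ J →
    Liv F s (θ * J) → ∃ F' : Fam m J, Rfr F F' r ∧ Liv F' r (Real.log 4) ∧
      CH F'.p (fun ω => (F'.X J ω, F'.T ω)) F'.Z ≤
        CH F.p (fun ω => (F.X J ω, F.T ω)) F.Z +
          (m + 1) * (((s : ℝ) - r) * Real.log 2) + E * J

/-- Shadings with `N` dead runs `(r i, s i]`, `1 ≤ i ≤ N`. -/
def MNR (m N : ℕ) : Prop :=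
  ∀ ε > 0, ∃ θ > 0, ∃ J₀ : ℕ, ∀ J ≥ J₀, ∀ (F : Fam m J) (r s : ℕ → ℕ), s 0 = 0 →
    (∀ i < N, s i ≤ r (i + 1) ∧ r (i + 1) ≤ s (i + 1) ∧ LivB F (s i) (r (i + 1)) (θ * J)) →
    s N ≤ J → Liv F (s N) (θ * J) →
      CH F.p (F.D J) F.Z ≤ CH F.p (fun ω => (F.X J ω, F.T ω)) F.Z - J * Real.log 2 +
        (m + 1) * ((∑ i ∈ Finset.range N, ((s (i + 1) : ℝ) - r (i + 1))) * Real.log 2) + ε * J

/-! ### Entropies after a refresh -/

lemma CH_push {Ω Ω' S T : Type} [Fintype Ω] [Fintype Ω'] {q : Ω' → ℝ} {p : Ω → ℝ} (pr : Ω' → Ω)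
    (hq : ∀ ω, (open Classical in ∑ ω', if pr ω' = ω then q ω' else 0) = p ω)
    (f : Ω → S) (g : Ω → T) :
    CH q (fun w => f (pr w)) (fun w => g (pr w)) = CH p f g := by
  unfold CH
  rw [← H_eq_of_marginal pr hq (fun ω => (f ω, g ω)), ← H_eq_of_marginal pr hq g]

lemma T1_T1 (F : Fam m J) {g r : ℕ} (hg : g ≤ r) (hr : r ≤ J) (ω : F.Ω) :
    F.T1 g ω = F.T1 r ω / 2 ^ (r - g) := by
  unfold Fam.T1
  rw [Nat.div_div_eq_div_mul, ← pow_add]
  congr 2
  omega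

lemma Rfr.D_eq {F F' : Fam m J} {r : ℕ} (h : Rfr F F' r) :
    CH F'.p (F'.D J) F'.Z = CH F.p (F.D J) F.Z := by
  obtain ⟨pr, hq, hu, hd, hZ, hT⟩ := h
  rw [← CH_push pr hq (F.D J) F.Z]
  refine CH_congr F'.isLaw.1 ?_ ?_ ?_ ?_
  · intro ω ω' _ _ hh
    have e := (Prod.ext_iff.mp hh).1
    simp only [Fam.D, hd] at e ⊢
    exact e
  · intro ω ω' _ _ hh
    have e := (Prod.ext_iff.mp hh).1
    simp only [Fam.D, hd] at e ⊢
    exact e
  · intro ω ω' _ _ hh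
    exact (hZ ω ω').1 hh
  · intro ω ω' _ _ hh
    exact (hZ ω ω').2 hh

lemma Rfr.LivB_iff {F F' : Fam m J} {r : ℕ} (h : Rfr F F' r) (hr : r ≤ J) {g g' : ℕ}
    (hg : g ≤ r) (hg' : g' ≤ r) {e : ℝ} (hF : LivB F g g' e) : LivB F' g g' e := by
  obtain ⟨pr, hq, hu, hd, hZ, hT⟩ := h
  unfold LivB at hF ⊢
  refine hF.trans (le_of_eq ?_)
  rw [← CH_push pr hq (F.T1 g') (fun ω => (F.l ω, F.Z ω, F.T1 g ω))]
  have hTg : ∀ k ≤ r, ∀ ω', F'.T1 k ω' = F.T1 k (pr ω') := by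
    intro k hk ω'
    rw [T1_T1 F' hk hr, T1_T1 F hk hr, hT]
  refine CH_congr F'.isLaw.1 ?_ ?_ ?_ ?_
  · intro ω ω' _ _ hh
    have e := (Prod.ext_iff.mp hh).1
    simp only [hTg g' hg'] at e ⊢
    exact e
  · intro ω ω' _ _ hh
    have e := (Prod.ext_iff.mp hh).1
    simp only [hTg g' hg'] at e ⊢
    exact e
  · intro ω ω' _ _ hh
    simp only [Prod.mk.injEq, Fam.l] at hh ⊢
    obtain ⟨⟨h1, h2⟩, h3, h4⟩ := hh
    refine ⟨⟨by rw [hu, hu, h1], by rw [hd, hd, h2]⟩, (hZ ω ω').2 h3, ?_⟩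
    rw [hTg g hg, hTg g hg, h4]
  · intro ω ω' _ _ hh
    simp only [Prod.mk.injEq, Fam.l] at hh ⊢
    obtain ⟨⟨h1, h2⟩, h3, h4⟩ := hh
    refine ⟨⟨by rw [← hu, ← hu, h1], by rw [← hd, ← hd, h2]⟩, (hZ ω ω').1 h3, ?_⟩
    rw [← hTg g hg, ← hTg g hg, h4]

/-- Two live blocks. -/
lemma Liv.add (F : Fam m J) {s r : ℕ} {e e' : ℝ} (hsr : s ≤ r) (hr : r ≤ J) (h1 : LivB F s r e)
    (h2 : Liv F r e') : Liv F s (e + e') := by
  have hp := F.isLaw.1
  unfold Liv LivB at *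
  have h3 := CH_chain hp F.T (F.T1 r) (fun ω => (F.l ω, F.Z ω, F.T1 s ω))
  have h4 : CH F.p (fun ω => (F.T ω, F.T1 r ω)) (fun ω => (F.l ω, F.Z ω, F.T1 s ω)) ≤
      CH F.p F.T (fun ω => (F.l ω, F.Z ω, F.T1 s ω)) := by
    refine CH_mono_left hp ?_
    intro ω ω' _ _ hh
    have e := (Prod.ext_iff.mp hh).1
    simp only [Fam.T1] at e ⊢
    rw [e]
  have h5 : CH F.p F.T (fun ω => (F.l ω, F.Z ω, F.T1 r ω)) ≤
      CH F.p F.T (fun ω => (F.T1 r ω, (F.l ω, F.Z ω, F.T1 s ω))) := by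
    refine CH_mono_cond hp ?_
    intro ω ω' _ _ hh
    simp only [Prod.mk.injEq] at hh ⊢
    refine ⟨hh.2.2, hh.1, hh.2.1, ?_⟩
    rw [T1_T1 F hsr hr, T1_T1 F hsr hr, hh.2.2]
  linarith

lemma Liv.Tm (F : Fam m J) {e : ℝ} (h : Liv F 0 e) : F.Tm e := by
  unfold Liv at h
  unfold Fam.Tm
  have h1 : CH F.p F.T (fun ω => (F.l ω, F.Z ω, F.T1 0 ω)) ≤
      CH F.p F.T (fun ω => (F.l ω, F.Z ω)) := by
    refine CH_mono_cond F.isLaw.1 ?_
    intro ω ω' _ _ hh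
    simp only [Prod.mk.injEq] at hh ⊢
    exact ⟨hh.1, hh.2.1⟩
  have h2 : ((0 : ℕ) : ℝ) = 0 := Nat.cast_zero
  rw [h2, sub_zero] at h
  linarith

lemma Liv.mono (F : Fam m J) {s : ℕ} {e e' : ℝ} (h : Liv F s e) (he : e ≤ e') : Liv F s e' := by
  unfold Liv at *
  linarith

lemma LivB.mono (F : Fam m J) {s r : ℕ} {e e' : ℝ} (h : LivB F s r e) (he : e ≤ e') :
    LivB F s r e' := by
  unfold LivB at *
  linarith

/-- The filling lemma for one run gives the inequality for `N` runs. -/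
theorem mnr_of_fil (h1 : KP m) (h2 : FIL m) (N : ℕ) : MNR m N := by
  induction N with
  | zero =>
    intro ε hε
    obtain ⟨θ, hθ, J₀, hK⟩ := h1 (ε / 2) (by linarith)
    refine ⟨min θ (ε / 2), lt_min hθ (by linarith), J₀, ?_⟩
    intro J hJ F r s hs0 _ _ hL
    rw [hs0] at hL
    have hJ0 : (0 : ℝ) ≤ J := Nat.cast_nonneg J
    have e1 : min θ (ε / 2) * J ≤ θ * J := mul_le_mul_of_nonneg_right (min_le_left _ _) hJ0
    have e2 : min θ (ε / 2) * J ≤ ε / 2 * J := mul_le_mul_of_nonneg_right (min_le_right _ _) hJ0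
    have h3 := hK J hJ F (Liv.Tm F (hL.mono F e1))
    have h4 : (J : ℝ) * Real.log 2 - ε / 2 * J ≤ CH F.p F.T F.Z := by
      have h5 := Liv.Tm F (hL.mono F e2)
      unfold Fam.Tm at h5
      refine h5.trans (CH_mono_cond F.isLaw.1 ?_)
      intro ω ω' _ _ hh
      exact (Prod.ext_iff.mp hh).2
    have h6 := CH_chain F.isLaw.1 (F.X J) F.T F.Z
    unfold Fam.V at h3
    have h7 : CH F.p (F.X J) F.W = CH F.p (F.X J) (fun ω => (F.T ω, F.Z ω)) := rfl
    rw [h7] at h3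
    rw [Finset.range_zero, Finset.sum_empty, zero_mul, mul_zero]
    linarith
  | succ N ih =>
    intro ε hε
    obtain ⟨θ, hθ, J₁, hI⟩ := ih (ε / 2) (by linarith)
    obtain ⟨θ', hθ', J₂, hF⟩ := h2 (ε / 2) (by linarith)
    obtain ⟨J₃, hJ₃⟩ := exists_nat_ge (Real.log 4 / (θ / 2))
    refine ⟨min (θ / 2) θ', lt_min (by linarith) hθ', max J₁ (max J₂ J₃), ?_⟩
    intro J hJ F r s hs0 hrs hsJ hL
    have hJ1 : J₁ ≤ J := le_trans (le_max_left _ _) hJ
    have hJ2 : J₂ ≤ J := le_trans (le_trans (le_max_left _ _) (le_max_right _ _)) hJ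
    have hJ3 : J₃ ≤ J := le_trans (le_trans (le_max_right _ _) (le_max_right _ _)) hJ
    have hJ0 : (0 : ℝ) ≤ J := Nat.cast_nonneg J
    have hlog : Real.log 4 ≤ θ / 2 * J := by
      have h3 : (J₃ : ℝ) ≤ J := by exact_mod_cast hJ3
      have h4 := hJ₃.trans h3
      rwa [div_le_iff₀ (by linarith), mul_comm] at h4
    have e1 : min (θ / 2) θ' * J ≤ θ / 2 * J :=
      mul_le_mul_of_nonneg_right (min_le_left _ _) hJ0
    have e2 : min (θ / 2) θ' * J ≤ θ' * J :=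
      mul_le_mul_of_nonneg_right (min_le_right _ _) hJ0
    have e3 : θ / 2 * J ≤ θ * J := by
      have := mul_nonneg hθ.le hJ0
      linarith
    obtain ⟨a1, a2, a3⟩ := hrs N (Nat.lt_succ_self N)
    have hrJ : r (N + 1) ≤ J := a2.trans hsJ
    obtain ⟨F', hR, hL', hX⟩ := hF J hJ2 F (r (N + 1)) (s (N + 1)) a2 hsJ (hL.mono F e2)
    have hmono : ∀ i ≤ N, s i ≤ r (N + 1) := by
      intro i hi
      have key : ∀ k, i + k ≤ N → s i ≤ s (i + k) := by
        intro k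
        induction k with
        | zero => intro _; exact le_rfl
        | succ k ihk =>
          intro hk
          have b1 := ihk (by omega)
          obtain ⟨b2, b3, -⟩ := hrs (i + k) (by omega)
          have b4 : s (i + k) ≤ s (i + k + 1) := b2.trans b3
          exact b1.trans b4
      have b := key (N - i) (by omega)
      have e : i + (N - i) = N := by omega
      rw [e] at b
      exact b.trans a1
    have hL2 : Liv F' (s N) (θ * J) := by
      have c1 := hR.LivB_iff hrJ (hmono N le_rfl) le_rfl a3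
      have c2 := Liv.add F' (hmono N le_rfl) hrJ c1 hL'
      refine c2.mono F' ?_
      linarith
    have hI' := hI J hJ1 F' r s hs0 (by
      intro i hi
      obtain ⟨b1, b2, b3⟩ := hrs i (by omega)
      refine ⟨b1, b2, ?_⟩
      have c := hR.LivB_iff hrJ (hmono i hi.le) (b2.trans (hmono (i + 1) hi)) b3
      exact c.mono F' (e1.trans e3)) ((hmono N le_rfl).trans hrJ) hL2
    rw [hR.D_eq] at hI'
    rw [Finset.sum_range_succ]
    have e4 : ε / 2 * J + ε / 2 * J = ε * J := by ring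
    have e5 : ((m : ℝ) + 1) * ((∑ i ∈ Finset.range N, ((s (i + 1) : ℝ) - r (i + 1)) +
        ((s (N + 1) : ℝ) - r (N + 1))) * Real.log 2) =
        ((m : ℝ) + 1) * ((∑ i ∈ Finset.range N, ((s (i + 1) : ℝ) - r (i + 1))) * Real.log 2) +
        ((m : ℝ) + 1) * (((s (N + 1) : ℝ) - r (N + 1)) * Real.log 2) := by ring
    rw [e5]
    linarith

end Pool.KMX
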