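import Pool.Agent.H73.KFIN.Count

/-!
# Random points chosen in stages

`Om N K M` is the space of pairs of an index `i < N` and choices `g k < M k`, `k ≤ K`, with the
uniform law.
-/

set_option autoImplicit false

namespace Pool.KMT

open Finset Real
open Pool.Agent.H49.Ent Pool.Agent.H32.Dense Pool.STK Pool.KFIN

/-- Lower bound for a conditional entropy under the uniform law. -/
lemma CH_lower_up {Ω S T : Type} [Fintype Ω] {c : ℝ} (hp : IsLaw (fun _ : Ω => c)) (X : Ω → S)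
    (Z : Ω → T) {n : ℕ} (hn : 0 < n) (up : Ω → Fin n → Ω)
    (hinj : ∀ ω ω' b b', X ω = X ω' → Z ω = Z ω' → up ω b = up ω' b' → ω = ω' ∧ b = b')
    (hZ : ∀ ω b, Z (up ω b) = Z ω) : Real.log n ≤ CH (fun _ : Ω => c) X Z := by
  classical
  refine CH_lower hp X Z (by exact_mod_cast hn) fun ω => ?_
  refine ⟨univ.filter fun w => X w = X ω ∧ Z w = Z ω,
    ((univ.filter fun w => X w = X ω ∧ Z w = Z ω) ×ˢ (univ : Finset (Fin n))).image
      fun q => up q.1 q.2, ?_, ?_, ?_⟩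
  · intro w h1 h2
    exact Finset.mem_filter.mpr ⟨Finset.mem_univ _, h1, h2⟩
  · intro w hw
    obtain ⟨q, hq, rfl⟩ := Finset.mem_image.mp hw
    rw [hZ]
    exact (Finset.mem_filter.mp (Finset.mem_product.mp hq).1).2.2
  · rw [Finset.card_image_of_injOn, Finset.card_product, Finset.card_univ, Fintype.card_fin]
    · push_cast
      exact le_of_eq (mul_comm _ _)
    · intro q hq q' hq' h
      have h1 := (Finset.mem_filter.mp (Finset.mem_product.mp (Finset.mem_coe.mp hq)).1).2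
      have h2 := (Finset.mem_filter.mp (Finset.mem_product.mp (Finset.mem_coe.mp hq')).1).2
      have h3 := hinj q.1 q'.1 q.2 q'.2 (h1.1.trans h2.1.symm) (h1.2.trans h2.2.symm) h
      exact Prod.ext h3.1 h3.2

variable {N K : ℕ} {M : ℕ → ℕ}

/-- The sample space. -/
abbrev Sp (N K : ℕ) (M : ℕ → ℕ) : Type := Fin N × (∀ k : Fin (K + 1), Fin (M k))

/-- The uniform law. -/
noncomputable def un (N K : ℕ) (M : ℕ → ℕ) (_ : Sp N K M) : ℝ :=
  (Fintype.card (Sp N K M) : ℝ)⁻¹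

lemma un_law (hN : 0 < N) (hM : ∀ k, 0 < M k) : IsLaw (un N K M) := by
  have hne : Nonempty (Sp N K M) := ⟨⟨⟨0, hN⟩, fun k => ⟨0, hM k⟩⟩⟩
  refine ⟨fun _ => by unfold un; positivity, ?_⟩
  unfold un
  rw [Finset.sum_const, nsmul_eq_mul, Finset.card_univ]
  exact mul_inv_cancel₀ (by exact_mod_cast Fintype.card_pos.ne')

/-- The choice number `k`. -/
def gn (ω : Sp N K M) (k : ℕ) : ℕ := if h : k < K + 1 then (ω.2 ⟨k, h⟩ : ℕ) else 0

lemma gn_lt (hM : ∀ k, 0 < M k) (ω : Sp N K M) (k : ℕ) : gn ω k < M k := by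
  unfold gn
  split_ifs with h
  · exact (ω.2 ⟨k, h⟩).2
  · exact hM k

/-- The index with the first `k` choices. -/
def Wk (k : ℕ) (ω : Sp N K M) : Fin N × (ℕ → ℕ) := (ω.1, fun j => if j < k then gn ω j else 0)

lemma Wk_fst {k : ℕ} {ω ω' : Sp N K M} (h : Wk k ω = Wk k ω') : ω.1 = ω'.1 :=
  (Prod.ext_iff.mp h).1

lemma Wk_gn {k : ℕ} {ω ω' : Sp N K M} (h : Wk k ω = Wk k ω') {j : ℕ} (hj : j < k) :
    gn ω j = gn ω' j := by
  have := congrFun (Prod.ext_iff.mp h).2 j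
  simpa [Wk, hj] using this

/-- The entropy of the index. -/
lemma CH_idx (hN : 0 < N) (hM : ∀ k, 0 < M k) :
    Real.log N ≤ CH (un N K M) (fun ω => ω.1) (fun _ => ()) := by
  refine CH_lower_up (un_law hN hM) _ _ hN (fun ω b => (b, ω.2)) ?_ ?_
  · intro ω ω' b b' h1 _ h2
    have h3 := Prod.ext_iff.mp h2
    exact ⟨Prod.ext h1 h3.2, h3.1⟩
  · intro _ _
    rfl

/-- The entropy of a choice. -/
lemma CH_gn (hN : 0 < N) (hM : ∀ k, 0 < M k) {k : ℕ} (hk : k < K + 1) :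
    Real.log (M k) ≤ CH (un N K M) (fun ω => gn ω k) (Wk k) := by
  refine CH_lower_up (un_law hN hM) _ _ (hM k)
    (fun ω b => (ω.1, Function.update ω.2 ⟨k, hk⟩ b)) ?_ ?_
  · intro ω ω' b b' h1 _ h2
    have h3 := Prod.ext_iff.mp h2
    have h4 : b = b' := by
      have := congrFun h3.2 ⟨k, hk⟩
      simpa using this
    refine ⟨Prod.ext h3.1 ?_, h4⟩
    funext j
    by_cases hj : j = ⟨k, hk⟩
    · subst hj
      have h5 : gn ω k = gn ω' k := h1
      unfold gn at h5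
      rw [dif_pos hk, dif_pos hk] at h5
      exact Fin.ext h5
    · have := congrFun h3.2 j
      simpa [Function.update_of_ne hj] using this
  · intro ω b
    refine Prod.ext rfl ?_
    funext j
    show (if j < k then gn (ω.1, Function.update ω.2 ⟨k, hk⟩ b) j else 0) =
      if j < k then gn ω j else 0
    split_ifs with hj
    · unfold gn
      have hj' : j < K + 1 := hj.trans hk
      rw [dif_pos hj', dif_pos hj']
      have : (⟨j, hj'⟩ : Fin (K + 1)) ≠ ⟨k, hk⟩ := by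
        intro h
        rw [Fin.mk.injEq] at h
        omega
      show ((Function.update ω.2 ⟨k, hk⟩ b ⟨j, hj'⟩ : Fin (M j)) : ℕ) = _
      rw [Function.update_of_ne this]
    · rfl

/-! ### The chain of points -/

/-- The points chosen in stages. -/
def pts (a : Fin N → ℝ) (sel : Fin N → ℕ → ℝ → ℕ → ℝ) (ω : Sp N K M) : ℕ → ℝ
  | 0 => a ω.1
  | k + 1 => sel ω.1 k (pts a sel ω k) (gn ω k)

variable {a : Fin N → ℝ} {sel : Fin N → ℕ → ℝ → ℕ → ℝ}

lemma pts_det {k : ℕ} {ω ω' : Sp N K M} (h : Wk k ω = Wk k ω') :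
    ∀ j ≤ k, pts a sel ω j = pts a sel ω' j := by
  intro j
  induction j with
  | zero =>
    intro _
    show a ω.1 = a ω'.1
    rw [Wk_fst h]
  | succ j ih =>
    intro hj
    show sel ω.1 j (pts a sel ω j) (gn ω j) = sel ω'.1 j (pts a sel ω' j) (gn ω' j)
    rw [ih (by omega), Wk_fst h, Wk_gn h hj]

section

variable {A : Fin N → Set ℝ} {σ ρ : ℕ → ℝ} (ha : ∀ i, a i ∈ A i)
  (hs1 : ∀ i, ∀ k ≤ K, ∀ t ∈ A i, ∀ b < M k, sel i k t b ∈ A i)
  (hs2 : ∀ i, ∀ k ≤ K, ∀ t ∈ A i, ∀ b < M k, |sel i k t b - t| ≤ σ k)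
  (hs3 : ∀ i, ∀ k ≤ K, ∀ t ∈ A i, ∀ b < M k, ∀ b' < M k, b ≠ b' →
    ρ (k + 1) ≤ |sel i k t b - sel i k t b'|)
  (hM : ∀ k, 0 < M k)

include ha hs1 hM in
lemma pts_mem (ω : Sp N K M) : ∀ k ≤ K + 1, pts a sel ω k ∈ A ω.1 := by
  intro k
  induction k with
  | zero => intro _; exact ha ω.1
  | succ k ih =>
    intro hk
    exact hs1 ω.1 k (by omega) _ (ih (by omega)) _ (gn_lt hM ω k)

include ha hs1 hs2 hM in
lemma pts_far (hσ : ∀ k < K, σ (k + 1) ≤ σ k) (ω : Sp N K M) {k : ℕ} (j : ℕ)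
    (hj : k + j ≤ K + 1) : |pts a sel ω (k + j) - pts a sel ω k| ≤ j * σ k := by
  induction j with
  | zero => simp
  | succ j ih =>
    have h1 := ih (by omega)
    have h2 := hs2 ω.1 (k + j) (by omega) _ (pts_mem ha hs1 hM ω (k + j) (by omega)) _
      (gn_lt hM ω (k + j))
    have h3 : pts a sel ω (k + (j + 1)) =
      sel ω.1 (k + j) (pts a sel ω (k + j)) (gn ω (k + j)) := rfl
    have h4 : σ (k + j) ≤ σ k := by
      have : ∀ l, k + l ≤ K → σ (k + l) ≤ σ k := by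
        intro l
        induction l with
        | zero => intro _; exact le_rfl
        | succ l ihl =>
          intro hl
          exact (hσ (k + l) (by omega)).trans (ihl (by omega))
      exact this j (by omega)
    rw [h3]
    have h5 : sel ω.1 (k + j) (pts a sel ω (k + j)) (gn ω (k + j)) - pts a sel ω k =
      (sel ω.1 (k + j) (pts a sel ω (k + j)) (gn ω (k + j)) - pts a sel ω (k + j)) +
        (pts a sel ω (k + j) - pts a sel ω k) := by ring
    rw [h5]
    refine (abs_add_le _ _).trans ?_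
    push_cast
    linarith

include ha hs1 hs2 hM in
/-- The last point is near the point number `k`. -/
lemma pts_last (hσ : ∀ k < K, σ (k + 1) ≤ σ k) (hσ0 : ∀ k ≤ K, 0 ≤ σ k) (ω : Sp N K M) {k : ℕ}
    (hk : k ≤ K) : |pts a sel ω (K + 1) - pts a sel ω k| ≤ (K + 1) * σ k := by
  have h := pts_far ha hs1 hs2 hM hσ ω (k := k) (K + 1 - k) (by omega)
  have e : k + (K + 1 - k) = K + 1 := by omega
  rw [e] at h
  refine h.trans (mul_le_mul_of_nonneg_right ?_ (hσ0 k hk))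
  have : ((K + 1 - k : ℕ) : ℝ) ≤ ((K + 1 : ℕ) : ℝ) := by exact_mod_cast Nat.sub_le _ _
  push_cast at this
  exact this

include ha hs1 hs2 hM in
/-- The last point is near the point number `k + 1`, at the smaller scale. -/
lemma pts_last' (hσ : ∀ k < K, σ (k + 1) ≤ σ k) (hσ0 : ∀ k ≤ K, 0 ≤ σ k)
    (hρ : ∀ k < K, σ (k + 1) ≤ ρ (k + 1)) (hρ0 : ∀ k ≤ K, 0 ≤ ρ (k + 1)) (ω : Sp N K M) {k : ℕ}
    (hk : k ≤ K) : |pts a sel ω (K + 1) - pts a sel ω (k + 1)| ≤ (K + 1) * ρ (k + 1) := by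
  rcases Nat.lt_or_ge k K with h | h
  · refine (pts_last ha hs1 hs2 hM hσ hσ0 ω (k := k + 1) h).trans ?_
    exact mul_le_mul_of_nonneg_left (hρ k h) (by positivity)
  · have : k = K := le_antisymm hk h
    subst this
    rw [sub_self, abs_zero]
    exact mul_nonneg (by positivity) (hρ0 k le_rfl)

include ha hs1 hs3 hM in
/-- The point number `k + 1`, rounded at its scale, determines the choice number `k`. -/
lemma pts_sep {k : ℕ} (hk : k ≤ K) (hρ0 : 0 < ρ (k + 1)) {ω ω' : Sp N K M}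
    (h : Wk k ω = Wk k ω')
    (h' : ⌊pts a sel ω (k + 1) / ρ (k + 1)⌋ = ⌊pts a sel ω' (k + 1) / ρ (k + 1)⌋) :
    gn ω k = gn ω' k := by
  by_contra hne
  have h1 := hs3 ω.1 k hk _ (pts_mem ha hs1 hM ω k (by omega)) _ (gn_lt hM ω k) _
    (gn_lt hM ω' k) hne
  have h2 : sel ω.1 k (pts a sel ω k) (gn ω' k) = pts a sel ω' (k + 1) := by
    show _ = sel ω'.1 k (pts a sel ω' k) (gn ω' k)
    rw [pts_det h k le_rfl, Wk_fst h]
  have h3 : sel ω.1 k (pts a sel ω k) (gn ω k) = pts a sel ω (k + 1) := rfl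
  rw [h2, h3] at h1
  have h4 := Int.abs_sub_lt_one_of_floor_eq_floor h'
  rw [← sub_div, abs_div, abs_of_pos hρ0, div_lt_one hρ0] at h4
  linarith

end

end Pool.KMT
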