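import Pool.Agent.H73.KMAX.Dir

/-!
# The number of cells of a set of tubes with shadings
-/

set_option autoImplicit false

namespace Pool.KMT

open Finset Real
open Pool.Agent.H49.Ent Pool.Agent.H32.Dense Pool.STK Pool.KFIN Pool.KMX
open Pool.Agent.H53.Kak (E)

variable {K m : ℕ}

/-- A constant. -/
noncomputable def C2 (m : ℕ) : ℝ := Real.log 3 + Real.log (m + 1) + m * Real.log 9

/-- Combination of the estimates. -/
lemma comb {Ω S T U : Type} [Fintype Ω] {p : Ω → ℝ} (hp : ∀ ω, 0 ≤ p ω) (D X : Ω → S) (T' : Ω → T)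
    (Z : Ω → U) {n x j b c r : ℝ} (h1 : CH p D Z ≤ CH p (fun ω => (X ω, T' ω)) Z - j + r + x)
    (h2 : n ≤ CH p (fun ω => (D ω, Z ω)) (fun _ => ()) + b)
    (h3 : CH p (fun ω => ((X ω, T' ω), Z ω)) (fun _ => ()) ≤ c) : n + j ≤ c + b + r + x := by
  have e1 := CH_chain hp D Z (fun _ => ())
  have e2 := CH_chain hp (fun ω => (X ω, T' ω)) Z (fun _ => ())
  have e3 : CH p D (fun ω => (Z ω, ())) = CH p D Z := by
    refine CH_congr hp (fun _ _ _ _ h => (Prod.ext_iff.mp h).1)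
      (fun _ _ _ _ h => (Prod.ext_iff.mp h).1) (fun _ _ _ _ h => (Prod.ext_iff.mp h).1)
      (fun _ _ _ _ h => Prod.ext h rfl)
  have e4 : CH p (fun ω => (X ω, T' ω)) (fun ω => (Z ω, ())) =
      CH p (fun ω => (X ω, T' ω)) Z := by
    refine CH_congr hp (fun _ _ _ _ h => (Prod.ext_iff.mp h).1)
      (fun _ _ _ _ h => (Prod.ext_iff.mp h).1) (fun _ _ _ _ h => (Prod.ext_iff.mp h).1)
      (fun _ _ _ _ h => Prod.ext h rfl)
  linarith

open Classical in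
/-- **The number of cells.** -/
theorem count_of_mnr (h : MNR m K) {ε : ℝ} (hε : 0 < ε) :
    ∃ θ > 0, ∃ J₀ : ℕ, ∀ J ≥ J₀, ∀ (N : ℕ) (M : ℕ → ℕ) (c e : Fin N → E m)
      (kk : Fin N → Fin (m + 1)) (a : Fin N → ℝ) (sel : Fin N → ℕ → ℝ → ℕ → ℝ)
      (_ : ∀ i, ‖e i‖ = 1) (_ : ∀ i l, |e i l| ≤ |e i (kk i)|) (_ : 0 < N)
      (_ : ∀ k, 0 < M k) (A : Fin N → Set ℝ) (σ ρ : ℕ → ℝ) (r s : ℕ → ℕ) (δ : ℝ),
      (∀ i, a i ∈ A i) →
      (∀ i, ∀ k ≤ K, ∀ t ∈ A i, ∀ b < M k, sel i k t b ∈ A i) →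
      (∀ i, ∀ k ≤ K, ∀ t ∈ A i, ∀ b < M k, |sel i k t b - t| ≤ σ k) →
      (∀ i, ∀ k ≤ K, ∀ t ∈ A i, ∀ b < M k, ∀ b' < M k, b ≠ b' →
        ρ (k + 1) ≤ |sel i k t b - sel i k t b'|) →
      (∀ k < K, σ (k + 1) ≤ σ k) → (∀ k ≤ K, 0 ≤ σ k) → (∀ k < K, σ (k + 1) ≤ ρ (k + 1)) →
      (∀ k ≤ K, 0 < ρ (k + 1)) →
      2 * (m + 1) < 2 ^ J * δ → (∀ i j, i ≠ j → δ ≤ ‖e i - e j‖) →
      s 0 = 0 → s K ≤ J → (∀ k < K, s k ≤ r (k + 1) ∧ r (k + 1) ≤ s (k + 1)) →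
      (∀ k ≤ K, 2 ^ s k * σ k ≤ 1) → (∀ k < K, 1 ≤ 2 * (2 ^ r (k + 1) * ρ (k + 1))) →
      1 ≤ 2 * (2 ^ J * ρ (K + 1)) →
      (∀ k < K, ((r (k + 1) : ℝ) - s k) * Real.log 2 - θ * J ≤ Real.log (M k) - C1 K m) →
      ((J : ℝ) - s K) * Real.log 2 - θ * J ≤ Real.log (M K) - C1 K m →
      Real.log N + J * Real.log 2 ≤
        Real.log ((univ.image (Qp (K := K) (M := M) J c e a sel)).card) + C2 m +
          (m + 1) * ((∑ k ∈ Finset.range K, ((s (k + 1) : ℝ) - r (k + 1))) * Real.log 2) +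
          ε * J := by
  obtain ⟨θ, hθ, J₀, hm⟩ := h ε hε
  refine ⟨θ, hθ, J₀, ?_⟩
  intro J hJ N M c e kk a sel he hkk hN hM A σ ρ r s δ ha hs1 hs2 hs3 hσ hσ0 hρ hρ0 hJδ hsep
    hs0 hsK hrs hsσ hrρ hJρ hM1 hM2
  have hlaw := un_law (K := K) hN hM
  have hp := hlaw.nonneg
  have hsmono : ∀ k ≤ K, s k ≤ J := by
    have key : ∀ l, l ≤ K → s (K - l) ≤ J := by
      intro l
      induction l with
      | zero => intro _; exact hsK
      | succ l ih =>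
        intro hl
        have h1 := ih (by omega)
        obtain ⟨h2, h3⟩ := hrs (K - (l + 1)) (by omega)
        have h4 : K - (l + 1) + 1 = K - l := by omega
        rw [h4] at h2 h3
        omega
    intro k hk
    have := key (K - k) (by omega)
    have e : K - (K - k) = k := by omega
    rwa [e] at this
  have h1 := hm J hJ (tfam (K := K) J c e kk a sel he hkk hN hM) r s hs0 (by
    intro k hk
    obtain ⟨b1, b2⟩ := hrs k hk
    refine ⟨b1, b2, ?_⟩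
    have b3 := tfam_liv (J := J) he hkk hN hM ha hs1 hs2 hs3 hσ hσ0 hρ hρ0 (k := k) (s := s k)
      (r := r (k + 1)) hk.le (hsmono k hk.le) (b2.trans (hsmono (k + 1) hk)) (hsσ k hk.le)
      (hrρ k hk) (c := c)
    unfold LivB
    exact (hM1 k hk).trans b3) hsK (by
    have b3 := tfam_liv (J := J) he hkk hN hM ha hs1 hs2 hs3 hσ hσ0 hρ hρ0 (k := K) (s := s K)
      (r := J) le_rfl hsK le_rfl (hsσ K le_rfl) hJρ (c := c)
    have b4 : (tfam (K := K) J c e kk a sel he hkk hN hM).T1 J = (tfam (K := K) J c e kk a sel he hkk hN hM).T := by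
      funext ω
      unfold Pool.KA.Fam.T1
      rw [Nat.sub_self, pow_zero, Nat.div_one]
    unfold Liv
    rw [b4] at b3
    exact hM2.trans b3)
  have h2 := tfam_D (K := K) (a := a) (sel := sel) (c := c) he hkk hN hM (J := J) hJδ hsep
  have h3 := tfam_X (K := K) (a := a) (sel := sel) (c := c) he hkk hN hM (J := J)
  have h4 := comb (p := un N K M) hp (S := Fin m → ℤ) (T := ℕ) (U := Fin (m + 1) × ℤ)
    ((tfam (K := K) J c e kk a sel he hkk hN hM).D J) ((tfam (K := K) J c e kk a sel he hkk hN hM).X J)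
    ((tfam (K := K) J c e kk a sel he hkk hN hM).T) ((tfam (K := K) J c e kk a sel he hkk hN hM).Z) h1 h2 h3
  unfold C2
  linarith

end Pool.KMT
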