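import Pool.Agent.H73.KMAX.Fam

/-!
# Directions and cells of the family of a set of tubes
-/

set_option autoImplicit false

namespace Pool.KMT

open Finset Real
open Pool.Agent.H49.Ent Pool.Agent.H32.Dense Pool.STK Pool.KFIN
open Pool.Agent.H53.Kak (E)

variable {N K m : ℕ} {M : ℕ → ℕ}

/-- Two unit vectors with the same largest coordinate, up to the sign, are close if their
velocities are close. -/
lemma dir_close {f g : E m} {k : Fin (m + 1)} (hf : ‖f‖ = 1) (hg : ‖g‖ = 1) (hfk : 0 < |f k|)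
    (hgk : 0 < |g k|) (hs : 0 ≤ f k * g k) {η : ℝ} (hη : 0 ≤ η)
    (h : ∀ j : Fin m, |f (k.succAbove j) / f k - g (k.succAbove j) / g k| ≤ η) :
    ‖f - g‖ ≤ 2 * ((m + 1) * η) := by
  have hf0 : f k ≠ 0 := abs_pos.mp hfk
  have hg0 : g k ≠ 0 := abs_pos.mp hgk
  have hfk1 : |f k| ≤ 1 := Pool.Agent.H53.Kak.coord_abs_le f hf k
  obtain ⟨v, hv⟩ : ∃ v : E m, v = (f k)⁻¹ • f := ⟨_, rfl⟩
  obtain ⟨w, hw⟩ : ∃ w : E m, w = (g k)⁻¹ • g := ⟨_, rfl⟩
  have hvn : ‖v‖ = |f k|⁻¹ := by rw [hv, norm_smul, hf, mul_one, Real.norm_eq_abs, abs_inv]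
  have hwn : ‖w‖ = |g k|⁻¹ := by rw [hw, norm_smul, hg, mul_one, Real.norm_eq_abs, abs_inv]
  have hvw : ‖v - w‖ ≤ (m + 1) * η := by
    refine Pool.Agent.H53.Kak.norm_le_of_coord hη fun i => ?_
    have e1 : (v - w) i = f i / f k - g i / g k := by
      rw [hv, hw, PiLp.sub_apply, PiLp.smul_apply, PiLp.smul_apply, smul_eq_mul, smul_eq_mul]
      ring
    rw [e1]
    rcases Fin.eq_self_or_eq_succAbove k i with hi | ⟨j, hj⟩
    · rw [hi, div_self hf0, div_self hg0, sub_self, abs_zero]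
      exact hη
    · rw [hj]
      exact h j
  have h1 : f - g = (f k) • (v - w) + (f k - g k) • w := by
    rw [hv, hw, smul_sub, smul_smul, mul_inv_cancel₀ hf0, one_smul, sub_smul,
      smul_smul (g k), mul_inv_cancel₀ hg0, one_smul]
    abel
  have h2 : |f k - g k| ≤ |f k| * |g k| * ‖v - w‖ := by
    have h3 : |f k - g k| = |(|f k| - |g k|)| := by
      rcases le_or_gt 0 (f k) with h4 | h4
      · have h5 : 0 < f k := lt_of_le_of_ne h4 hf0.symm
        have h6 : 0 ≤ g k := by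
          by_contra h7
          rw [not_le] at h7
          have := mul_neg_of_pos_of_neg h5 h7
          linarith
        rw [abs_of_nonneg h4, abs_of_nonneg h6]
      · have h6 : g k ≤ 0 := by
          by_contra h7
          rw [not_le] at h7
          have := mul_neg_of_neg_of_pos h4 h7
          linarith
        rw [abs_of_neg h4, abs_of_nonpos h6]
        have : -f k - -g k = -(f k - g k) := by ring
        rw [this, abs_neg]
    have h4 : |‖w‖ - ‖v‖| ≤ ‖v - w‖ := by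
      rw [norm_sub_rev]
      exact abs_norm_sub_norm_le w v
    have h5 : |f k| - |g k| = |f k| * |g k| * (‖w‖ - ‖v‖) := by
      rw [hvn, hwn]
      field_simp
    rw [h3, h5, abs_mul, abs_of_pos (mul_pos hfk hgk)]
    exact mul_le_mul_of_nonneg_left h4 (by positivity)
  have hn := norm_nonneg (v - w)
  calc ‖f - g‖ ≤ ‖(f k) • (v - w)‖ + ‖(f k - g k) • w‖ := by rw [h1]; exact norm_add_le _ _
    _ = |f k| * ‖v - w‖ + |f k - g k| * |g k|⁻¹ := by
        rw [norm_smul, norm_smul, hwn, Real.norm_eq_abs, Real.norm_eq_abs]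
    _ ≤ |f k| * ‖v - w‖ + |f k| * |g k| * ‖v - w‖ * |g k|⁻¹ := by gcongr
    _ = 2 * |f k| * ‖v - w‖ := by
        field_simp
        ring
    _ ≤ 2 * 1 * ((m + 1) * η) := by gcongr
    _ = _ := by ring

section

variable {J : ℕ} {c e : Fin N → E m} {kk : Fin N → Fin (m + 1)} {a : Fin N → ℝ}
  {sel : Fin N → ℕ → ℝ → ℕ → ℝ} (he : ∀ i, ‖e i‖ = 1)
  (hkk : ∀ i l, |e i l| ≤ |e i (kk i)|) (hN : 0 < N) (hM : ∀ k, 0 < M k)

/-- The entropy of the direction. -/
theorem tfam_D {δ : ℝ} (hJ : 2 * (m + 1) < 2 ^ J * δ)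
    (hsep : ∀ i j, i ≠ j → δ ≤ ‖e i - e j‖) :
    Real.log N ≤ CH (un N K M) (fun ω => ((tfam J c e kk a sel he hkk hN hM).D J ω,
      (tfam J c e kk a sel he hkk hN hM).Z ω)) (fun _ => ()) + Real.log 3 := by
  have hlaw := un_law (K := K) hN hM
  have hp := hlaw.nonneg
  obtain ⟨Y, hY⟩ : ∃ Y : Sp N K M → ((Fin m → ℤ) × (Fin (m + 1) × ℤ)),
    Y = fun ω => ((tfam J c e kk a sel he hkk hN hM).D J ω,
      (tfam J c e kk a sel he hkk hN hM).Z ω) := ⟨_, rfl⟩
  have h1 := CH_idx (K := K) hN hM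
  have h2 := CH_le_add hp (fun ω : Sp N K M => ω.1) Y (fun _ => ())
  have h3 : CH (un N K M) (fun ω : Sp N K M => ω.1) (fun ω => (Y ω, ())) ≤ Real.log 3 := by
    refine (CH_mono_left hp (X' := fun ω : Sp N K M =>
      (if 0 ≤ e ω.1 (kk ω.1) then (1 : ℤ) else 0)) ?_).trans ?_
    · intro ω ω' _ _ h
      have e1 := Prod.ext_iff.mp h
      have e2 : Y ω = Y ω' := (Prod.ext_iff.mp e1.2).1
      rw [hY] at e2
      have e3 := Prod.ext_iff.mp e2
      have e4 : fl J (dd e kk ω.1) = fl J (dd e kk ω'.1) := e3.1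
      have e5 : kk ω.1 = kk ω'.1 := (Prod.ext_iff.mp e3.2).1
      by_contra hne
      have hd := hsep ω.1 ω'.1 hne
      have hs : 0 ≤ e ω.1 (kk ω.1) * e ω'.1 (kk ω'.1) := by
        have e6 : (if 0 ≤ e ω.1 (kk ω.1) then (1 : ℤ) else 0) =
          (if 0 ≤ e ω'.1 (kk ω'.1) then (1 : ℤ) else 0) := e1.1
        split_ifs at e6 with h7 h8 h8
        · exact mul_nonneg h7 h8
        · exact absurd e6 (by norm_num)
        · exact absurd e6 (by norm_num)
        · exact (mul_pos_of_neg_of_neg (not_le.mp h7) (not_le.mp h8)).le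
      have h2J : (0 : ℝ) < 2 ^ J := by positivity
      have h4 := dir_close (f := e ω.1) (g := e ω'.1) (k := kk ω.1) (he _) (he _)
        (kk_pos he hkk ω.1) (by rw [e5]; exact kk_pos he hkk ω'.1)
        (by rw [← e5] at hs; exact hs) (η := (2 ^ J)⁻¹) (by positivity) (by
          intro j
          have e7 : ⌊2 ^ J * dd e kk ω.1 j⌋ = ⌊2 ^ J * dd e kk ω'.1 j⌋ := congrFun e4 j
          have e8 := Int.abs_sub_lt_one_of_floor_eq_floor e7
          rw [← mul_sub, abs_mul, abs_of_pos h2J] at e8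
          have e9 : dd e kk ω'.1 j = e ω'.1 ((kk ω.1).succAbove j) / e ω'.1 (kk ω.1) := by
            unfold dd
            rw [e5]
          rw [e9] at e8
          rw [← one_div, le_div_iff₀ h2J, mul_comm]
          exact e8.le)
      have h5 : 2 * (((m : ℝ) + 1) * (2 ^ J)⁻¹) < δ := by
        rw [← mul_assoc, ← div_eq_mul_inv, div_lt_iff₀ h2J, mul_comm δ]
        exact hJ
      linarith
    · refine (CH_le_int hp hlaw.sum_one _ _ (fun _ => 1) ?_).trans (le_of_eq ?_)
      · intro ω ω' _ _ _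
        split_ifs <;> norm_num
      · rw [Ex_const hlaw.sum_one]
        norm_num
  have hfin : Real.log N ≤ CH (un N K M) Y (fun _ => ()) + Real.log 3 := by linarith
  rw [hY] at hfin
  exact hfin

/-- The rounded random point. -/
noncomputable def Qp (J : ℕ) (c e : Fin N → E m) (a : Fin N → ℝ)
    (sel : Fin N → ℕ → ℝ → ℕ → ℝ) (ω : Sp N K M) : Fin (m + 1) → ℤ :=
  fun l => ⌊2 ^ J * (c ω.1 + pts a sel ω (K + 1) • e ω.1) l⌋

open Classical in
/-- The entropy of the position and the time. -/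
theorem tfam_X : CH (un N K M) (fun ω => (((tfam J c e kk a sel he hkk hN hM).X J ω,
      (tfam J c e kk a sel he hkk hN hM).T ω), (tfam J c e kk a sel he hkk hN hM).Z ω))
      (fun _ => ()) ≤
    Real.log ((univ.image (Qp (K := K) (M := M) J c e a sel)).card) + Real.log (m + 1) +
      m * Real.log 9 := by
  have hlaw := un_law (K := K) hN hM
  have hp := hlaw.nonneg
  obtain ⟨X, hX⟩ : ∃ X : Sp N K M → (Fin m → ℤ),
    X = (tfam J c e kk a sel he hkk hN hM).X J := ⟨_, rfl⟩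
  obtain ⟨T, hT⟩ : ∃ T : Sp N K M → ℕ,
    T = (tfam J c e kk a sel he hkk hN hM).T := ⟨_, rfl⟩
  obtain ⟨Z, hZ⟩ : ∃ Z : Sp N K M → Fin (m + 1) × ℤ,
    Z = (tfam J c e kk a sel he hkk hN hM).Z := ⟨_, rfl⟩
  have hT1 : ∀ ω ω', ⌊2 ^ J * tau c e kk a sel ω⌋ = ⌊2 ^ J * tau c e kk a sel ω'⌋ →
      ⌊tau c e kk a sel ω⌋ = ⌊tau c e kk a sel ω'⌋ ∧ T ω = T ω' := by
    intro ω ω' h
    have h1 := tfam_T1_eq he hkk hN hM (le_refl J) h
    refine ⟨h1.1, ?_⟩
    rw [hT]
    have h2 := h1.2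
    unfold Pool.KA.Fam.T1 at h2
    rw [Nat.sub_self, pow_zero, Nat.div_one, Nat.div_one] at h2
    exact h2
  obtain ⟨Y, hY⟩ : ∃ Y : Sp N K M → ((Fin (m + 1) → ℤ) × Fin (m + 1)),
    Y = fun ω => (Qp J c e a sel ω, kk ω.1) := ⟨_, rfl⟩
  have hYt : ∀ ω ω', Y ω = Y ω' → kk ω.1 = kk ω'.1 ∧
      ⌊2 ^ J * tau c e kk a sel ω⌋ = ⌊2 ^ J * tau c e kk a sel ω'⌋ ∧
      Qp J c e a sel ω = Qp J c e a sel ω' := by
    intro ω ω' h
    rw [hY] at h
    have h1 := Prod.ext_iff.mp h
    have h2 : kk ω.1 = kk ω'.1 := h1.2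
    refine ⟨h2, ?_, h1.1⟩
    have h3 := congrFun h1.1 (kk ω.1)
    have h4 : ∀ ω : Sp N K M, ∀ l, (c ω.1 + pts a sel ω (K + 1) • e ω.1) l =
      c ω.1 l + pts a sel ω (K + 1) * e ω.1 l := fun _ _ => rfl
    have h5 : ⌊2 ^ J * (c ω.1 + pts a sel ω (K + 1) • e ω.1) (kk ω.1)⌋ =
      ⌊2 ^ J * (c ω'.1 + pts a sel ω' (K + 1) • e ω'.1) (kk ω.1)⌋ := h3
    rw [h4, h4] at h5
    unfold tau
    rw [← h2]
    exact h5
  have h1 := CH_le_add hp (fun ω => ((X ω, T ω), Z ω)) Y (fun _ => ())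
  have h2 : CH (un N K M) Y (fun _ => ()) ≤
      Real.log ((univ.image (Qp (K := K) (M := M) J c e a sel)).card) + Real.log (m + 1) := by
    refine (CH_le_card hp hlaw.sum_one Y (fun _ => ())
      (fun _ => (univ.image (Qp (K := K) (M := M) J c e a sel)) ×ˢ
        (univ : Finset (Fin (m + 1)))) ?_).trans (le_of_eq ?_)
    · intro ω _
      rw [hY]
      exact Finset.mem_product.mpr ⟨Finset.mem_image_of_mem _ (Finset.mem_univ _),
        Finset.mem_univ _⟩
    · rw [Ex_const hlaw.sum_one, Finset.card_product, Finset.card_univ, Fintype.card_fin]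
      push_cast
      rw [Real.log_mul]
      · have hne : Nonempty (Sp N K M) := ⟨⟨⟨0, hN⟩, fun k => ⟨0, hM k⟩⟩⟩
        have : 0 < (univ.image (Qp (K := K) (M := M) J c e a sel)).card :=
          Finset.card_pos.mpr (Finset.univ_nonempty.image _)
        exact_mod_cast this.ne'
      · positivity
  have h3 : CH (un N K M) (fun ω => ((X ω, T ω), Z ω)) (fun ω => (Y ω, ())) ≤
      m * Real.log 9 := by
    refine (CH_mono_left hp (X' := X) ?_).trans ?_
    · intro ω ω' _ _ h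
      have e1 := Prod.ext_iff.mp h
      have e2 := hYt ω ω' (Prod.ext_iff.mp e1.2).1
      have e3 := hT1 ω ω' e2.2.1
      refine Prod.ext (Prod.ext e1.1 e3.2) ?_
      rw [hZ]
      show (kk ω.1, ⌊tau c e kk a sel ω⌋) = (kk ω'.1, ⌊tau c e kk a sel ω'⌋)
      rw [e2.1, e3.1]
    · refine (CH_le_vec hp hlaw.sum_one X _ (fun _ => 4) ?_).trans (le_of_eq ?_)
      · intro ω ω' _ _ h j
        have e1 := hYt ω ω' (Prod.ext_iff.mp h).1
        have key : ∀ ω : Sp N K M,
            |((X ω j - Qp J c e a sel ω ((kk ω.1).succAbove j) : ℤ) : ℝ)| ≤ 2 := by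
          intro ω
          have h2J : (0 : ℝ) < 2 ^ J := by positivity
          have a1 : X ω j = ⌊2 ^ J * ((u0 c e kk ω.1 j + (⌊tau c e kk a sel ω⌋ : ℝ) *
              dd e kk ω.1 j) + ((T ω : ℕ) : ℝ) / 2 ^ J * dd e kk ω.1 j)⌋ := by
            rw [hX, hT]
            rfl
          have a2 : ((T ω : ℕ) : ℝ) = (⌊2 ^ J * tau c e kk a sel ω⌋ : ℝ) -
              2 ^ J * (⌊tau c e kk a sel ω⌋ : ℝ) := by
            have a3 := tfam_T1 (c := c) (a := a) (sel := sel) he hkk hN hM (le_refl J) ω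
            unfold Pool.KA.Fam.T1 at a3
            rw [Nat.sub_self, pow_zero, Nat.div_one] at a3
            rw [hT]
            exact_mod_cast a3
          have a4 : Qp J c e a sel ω ((kk ω.1).succAbove j) =
              ⌊2 ^ J * (u0 c e kk ω.1 j + tau c e kk a sel ω * dd e kk ω.1 j)⌋ := by
            have b1 : Qp J c e a sel ω ((kk ω.1).succAbove j) =
              ⌊2 ^ J * (c ω.1 ((kk ω.1).succAbove j) +
                pts a sel ω (K + 1) * e ω.1 ((kk ω.1).succAbove j))⌋ := rfl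
            rw [b1]
            congr 2
            have b2 : e ω.1 (kk ω.1) ≠ 0 := abs_pos.mp (kk_pos he hkk ω.1)
            unfold u0 tau dd
            field_simp
            ring
          have a5 : 2 ^ J * ((u0 c e kk ω.1 j + (⌊tau c e kk a sel ω⌋ : ℝ) *
              dd e kk ω.1 j) + ((T ω : ℕ) : ℝ) / 2 ^ J * dd e kk ω.1 j) =
              2 ^ J * u0 c e kk ω.1 j +
                (⌊2 ^ J * tau c e kk a sel ω⌋ : ℝ) * dd e kk ω.1 j := by
            rw [a2]
            field_simp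
            ring
          have a6 : |(2 ^ J * u0 c e kk ω.1 j +
              (⌊2 ^ J * tau c e kk a sel ω⌋ : ℝ) * dd e kk ω.1 j) -
              2 ^ J * (u0 c e kk ω.1 j + tau c e kk a sel ω * dd e kk ω.1 j)| ≤ 1 := by
            have b3 : (2 ^ J * u0 c e kk ω.1 j +
              (⌊2 ^ J * tau c e kk a sel ω⌋ : ℝ) * dd e kk ω.1 j) -
              2 ^ J * (u0 c e kk ω.1 j + tau c e kk a sel ω * dd e kk ω.1 j) =
              ((⌊2 ^ J * tau c e kk a sel ω⌋ : ℝ) - 2 ^ J * tau c e kk a sel ω) *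
                dd e kk ω.1 j := by ring
            rw [b3, abs_mul]
            have b4 : |(⌊2 ^ J * tau c e kk a sel ω⌋ : ℝ) - 2 ^ J * tau c e kk a sel ω| ≤ 1 := by
              rw [abs_le]
              have := Int.floor_le (2 ^ J * tau c e kk a sel ω)
              have := Int.lt_floor_add_one (2 ^ J * tau c e kk a sel ω)
              constructor <;> linarith
            exact mul_le_one₀ b4 (abs_nonneg _) (dd_le he hkk ω.1 j)
          rw [a1, a4, a5]
          have c1 := Int.floor_le (2 ^ J * u0 c e kk ω.1 j +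
            (⌊2 ^ J * tau c e kk a sel ω⌋ : ℝ) * dd e kk ω.1 j)
          have c2 := Int.lt_floor_add_one (2 ^ J * u0 c e kk ω.1 j +
            (⌊2 ^ J * tau c e kk a sel ω⌋ : ℝ) * dd e kk ω.1 j)
          have c3 := Int.floor_le (2 ^ J * (u0 c e kk ω.1 j +
            tau c e kk a sel ω * dd e kk ω.1 j))
          have c4 := Int.lt_floor_add_one (2 ^ J * (u0 c e kk ω.1 j +
            tau c e kk a sel ω * dd e kk ω.1 j))
          rw [abs_le] at a6 ⊢
          push_cast
          constructor <;> linarith [a6.1, a6.2]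
        have k1 := key ω
        have k2 := key ω'
        rw [← e1.2.2, ← e1.1] at k2
        rw [abs_le] at k1 k2 ⊢
        push_cast at k1 k2 ⊢
        constructor <;> linarith [k1.1, k1.2, k2.1, k2.2]
      · rw [Ex_const hlaw.sum_one]
        norm_num
  have h4 : CH (un N K M) (fun ω => ((X ω, T ω), Z ω)) (fun _ => ()) ≤
    Real.log ((univ.image (Qp (K := K) (M := M) J c e a sel)).card) + Real.log (m + 1) +
      m * Real.log 9 := by linarith
  rw [hX, hT, hZ] at h4
  exact h4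

end

end Pool.KMT
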