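import Pool.Agent.H73.KMAX.Chain
import Pool.Agent.H73.KMAX.MNR
import Pool.Agent.H53.Kak.Dual
import Pool.Agent.H53.Kak.WCells

/-!
# The family of lines of a set of tubes with shadings
-/

set_option autoImplicit false

namespace Pool.KMT

open Finset Real
open Pool.Agent.H49.Ent Pool.Agent.H32.Dense Pool.STK Pool.KFIN
open Pool.Agent.H53.Kak (E)

variable {N K m : ℕ} {M : ℕ → ℕ}

/-! ### Coordinates of a line -/

/-- The velocity with respect to the largest coordinate. -/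
noncomputable def dd (e : Fin N → E m) (kk : Fin N → Fin (m + 1)) (i : Fin N) (j : Fin m) : ℝ :=
  e i ((kk i).succAbove j) / e i (kk i)

/-- The position at time zero. -/
noncomputable def u0 (c e : Fin N → E m) (kk : Fin N → Fin (m + 1)) (i : Fin N) (j : Fin m) : ℝ :=
  c i ((kk i).succAbove j) - c i (kk i) * dd e kk i j

/-- The time of the random point. -/
noncomputable def tau (c e : Fin N → E m) (kk : Fin N → Fin (m + 1)) (a : Fin N → ℝ)
    (sel : Fin N → ℕ → ℝ → ℕ → ℝ) (ω : Sp N K M) : ℝ :=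
  c ω.1 (kk ω.1) + pts a sel ω (K + 1) * e ω.1 (kk ω.1)

section

variable {c e : Fin N → E m} {kk : Fin N → Fin (m + 1)}
  (he : ∀ i, ‖e i‖ = 1) (hkk : ∀ i l, |e i l| ≤ |e i (kk i)|)

include he hkk in
lemma kk_big (i : Fin N) : 1 / ((m : ℝ) + 1) ≤ |e i (kk i)| ^ 2 := by
  obtain ⟨k, hk⟩ := Pool.Agent.H53.Kak.exists_coord (e i) (he i)
  refine hk.trans ?_
  rw [← sq_abs]
  exact pow_le_pow_left₀ (abs_nonneg _) (hkk i k) 2

include he hkk in
lemma kk_pos (i : Fin N) : 0 < |e i (kk i)| := by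
  have h := kk_big he hkk i
  have h1 : (0 : ℝ) < 1 / ((m : ℝ) + 1) := by positivity
  have h2 : 0 < |e i (kk i)| ^ 2 := h1.trans_le h
  exact lt_of_le_of_ne (abs_nonneg _) fun h3 => by rw [← h3] at h2; norm_num at h2

include he in
lemma kk_le (i : Fin N) : |e i (kk i)| ≤ 1 := Pool.Agent.H53.Kak.coord_abs_le (e i) (he i) _

include he hkk in
lemma kk_ge (i : Fin N) : 1 / ((m : ℝ) + 1) ≤ |e i (kk i)| := by
  refine (kk_big he hkk i).trans ?_
  rw [sq]
  exact mul_le_of_le_one_left (abs_nonneg _) (kk_le he i)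

include he hkk in
lemma dd_le (i : Fin N) (j : Fin m) : |dd e kk i j| ≤ 1 := by
  unfold dd
  rw [abs_div, div_le_one (kk_pos he hkk i)]
  exact hkk i _

end

/-- The family of lines. -/
noncomputable def tfam (J : ℕ) (c e : Fin N → E m) (kk : Fin N → Fin (m + 1)) (a : Fin N → ℝ)
    (sel : Fin N → ℕ → ℝ → ℕ → ℝ) (he : ∀ i, ‖e i‖ = 1)
    (hkk : ∀ i l, |e i l| ≤ |e i (kk i)|) (hN : 0 < N) (hM : ∀ k, 0 < M k) :
    Pool.KA.Fam m J where
  Ω := Sp N K M
  ζ := Fin (m + 1) × ℤ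
  fin := inferInstance
  p := un N K M
  u := fun ω j => u0 c e kk ω.1 j + (⌊tau c e kk a sel ω⌋ : ℝ) * dd e kk ω.1 j
  d := fun ω => dd e kk ω.1
  T := fun ω => (⌊2 ^ J * tau c e kk a sel ω⌋ - 2 ^ J * ⌊tau c e kk a sel ω⌋).toNat
  Z := fun ω => (kk ω.1, ⌊tau c e kk a sel ω⌋)
  isLaw := un_law hN hM
  dir := fun ω j => dd_le he hkk ω.1 j
  tim := fun ω => by
    have h2 : (⌊2 ^ J * tau c e kk a sel ω⌋ - 2 ^ J * ⌊tau c e kk a sel ω⌋) < 2 ^ J := by
      have h3 : ⌊2 ^ J * tau c e kk a sel ω⌋ < 2 ^ J * ⌊tau c e kk a sel ω⌋ + 2 ^ J := by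
        rw [Int.floor_lt]
        push_cast
        have h4 := Int.lt_floor_add_one (tau c e kk a sel ω)
        have h5 : (0 : ℝ) < 2 ^ J := by positivity
        nlinarith
      linarith
    have h3 : 0 < 2 ^ J := pow_pos (by norm_num : 0 < 2) J
    have h4 : (⌊2 ^ J * tau c e kk a sel ω⌋ - 2 ^ J * ⌊tau c e kk a sel ω⌋) <
        ((2 ^ J : ℕ) : ℤ) := by
      push_cast
      exact h2
    omega

section

variable {J : ℕ} {c e : Fin N → E m} {kk : Fin N → Fin (m + 1)} {a : Fin N → ℝ}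
  {sel : Fin N → ℕ → ℝ → ℕ → ℝ} (he : ∀ i, ‖e i‖ = 1)
  (hkk : ∀ i l, |e i l| ≤ |e i (kk i)|) (hN : 0 < N) (hM : ∀ k, 0 < M k)

/-- The digits of the time. -/
lemma tfam_T1 {s : ℕ} (hs : s ≤ J) (ω : Sp N K M) :
    (((tfam J c e kk a sel he hkk hN hM).T1 s ω : ℕ) : ℤ) =
      ⌊2 ^ s * tau c e kk a sel ω⌋ - 2 ^ s * ⌊tau c e kk a sel ω⌋ := by
  have h1 : (tfam J c e kk a sel he hkk hN hM).T1 s ω =
    (⌊2 ^ J * tau c e kk a sel ω⌋ - 2 ^ J * ⌊tau c e kk a sel ω⌋).toNat / 2 ^ (J - s) := rfl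
  have h0 : 0 ≤ ⌊2 ^ J * tau c e kk a sel ω⌋ - 2 ^ J * ⌊tau c e kk a sel ω⌋ := by
    rw [sub_nonneg, Int.le_floor]
    push_cast
    exact mul_le_mul_of_nonneg_left (Int.floor_le _) (by positivity)
  rw [h1, Int.natCast_div, Int.toNat_of_nonneg h0]
  push_cast
  have h2 : (2 : ℤ) ^ J = 2 ^ s * 2 ^ (J - s) := by rw [← pow_add, Nat.add_sub_cancel' hs]
  have h2' : (2 : ℝ) ^ J = 2 ^ (J - s) * 2 ^ s := by
    rw [← pow_add, Nat.sub_add_cancel hs]
  have h3 : (2 : ℤ) ^ (J - s) ≠ 0 := by positivity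
  have h4 : ⌊2 ^ J * tau c e kk a sel ω⌋ / 2 ^ (J - s) = ⌊2 ^ s * tau c e kk a sel ω⌋ := by
    rw [h2', mul_assoc]
    have := Int.natCast_mul_floor_div_cancel (n := 2 ^ (J - s)) (by positivity)
      (2 ^ s * tau c e kk a sel ω)
    push_cast at this
    exact this
  rw [← h4]
  have h5 : ⌊2 ^ J * tau c e kk a sel ω⌋ - 2 ^ J * ⌊tau c e kk a sel ω⌋ =
    ⌊2 ^ J * tau c e kk a sel ω⌋ + (-(2 ^ s * ⌊tau c e kk a sel ω⌋)) * 2 ^ (J - s) := by
    rw [h2]; ring
  rw [h5, Int.add_mul_ediv_right _ _ h3]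
  ring

/-- The time is a function of the rounded real time. -/
lemma tfam_T1_eq {s : ℕ} (hs : s ≤ J) {ω ω' : Sp N K M}
    (h : ⌊2 ^ s * tau c e kk a sel ω⌋ = ⌊2 ^ s * tau c e kk a sel ω'⌋) :
    ⌊tau c e kk a sel ω⌋ = ⌊tau c e kk a sel ω'⌋ ∧
      (tfam J c e kk a sel he hkk hN hM).T1 s ω = (tfam J c e kk a sel he hkk hN hM).T1 s ω' := by
  have h1 : ⌊tau c e kk a sel ω⌋ = ⌊tau c e kk a sel ω'⌋ := by
    have h2 := Int.natCast_mul_floor_div_cancel (n := 2 ^ s) (by positivity)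
      (tau c e kk a sel ω)
    have h3 := Int.natCast_mul_floor_div_cancel (n := 2 ^ s) (by positivity)
      (tau c e kk a sel ω')
    push_cast at h2 h3
    rw [← h2, ← h3, h]
  refine ⟨h1, ?_⟩
  have h2 := tfam_T1 (c := c) (a := a) (sel := sel) he hkk hN hM hs ω
  have h3 := tfam_T1 (c := c) (a := a) (sel := sel) he hkk hN hM hs ω'
  rw [h, h1, ← h3] at h2
  exact_mod_cast h2

/-- Conversely. -/
lemma tfam_fl_eq {s : ℕ} (hs : s ≤ J) {ω ω' : Sp N K M}
    (h : ⌊tau c e kk a sel ω⌋ = ⌊tau c e kk a sel ω'⌋)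
    (h' : (tfam J c e kk a sel he hkk hN hM).T1 s ω =
      (tfam J c e kk a sel he hkk hN hM).T1 s ω') :
    ⌊2 ^ s * tau c e kk a sel ω⌋ = ⌊2 ^ s * tau c e kk a sel ω'⌋ := by
  have h2 := tfam_T1 (c := c) (a := a) (sel := sel) he hkk hN hM hs ω
  have h3 := tfam_T1 (c := c) (a := a) (sel := sel) he hkk hN hM hs ω'
  rw [h'] at h2
  rw [h2] at h3
  rw [h] at h3
  linarith

include he hkk in
/-- Times of points of the same line. -/
lemma tau_sub {ω ω' : Sp N K M} (h : ω.1 = ω'.1) :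
    |pts a sel ω (K + 1) - pts a sel ω' (K + 1)| ≤
      (m + 1) * |tau c e kk a sel ω - tau c e kk a sel ω'| := by
  have h1 : tau c e kk a sel ω - tau c e kk a sel ω' =
      (pts a sel ω (K + 1) - pts a sel ω' (K + 1)) * e ω.1 (kk ω.1) := by
    unfold tau
    rw [← h]
    ring
  rw [h1, abs_mul]
  have h2 := kk_ge he hkk ω.1
  have h3 : 1 ≤ ((m : ℝ) + 1) * |e ω.1 (kk ω.1)| := by
    rw [div_le_iff₀ (by positivity)] at h2
    linarith
  have h4 := abs_nonneg (pts a sel ω (K + 1) - pts a sel ω' (K + 1))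
  calc |pts a sel ω (K + 1) - pts a sel ω' (K + 1)| ≤
      |pts a sel ω (K + 1) - pts a sel ω' (K + 1)| * (((m : ℝ) + 1) * |e ω.1 (kk ω.1)|) :=
        le_mul_of_one_le_right h4 h3
    _ = _ := by ring

include he in
lemma tau_sub' {ω ω' : Sp N K M} (h : ω.1 = ω'.1) :
    |tau c e kk a sel ω - tau c e kk a sel ω'| ≤
      |pts a sel ω (K + 1) - pts a sel ω' (K + 1)| := by
  have h1 : tau c e kk a sel ω - tau c e kk a sel ω' =
      (pts a sel ω (K + 1) - pts a sel ω' (K + 1)) * e ω.1 (kk ω.1) := by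
    unfold tau
    rw [← h]
    ring
  rw [h1, abs_mul]
  exact mul_le_of_le_one_right (abs_nonneg _) (kk_le he ω.1)

section live

variable {A : Fin N → Set ℝ} {σ ρ : ℕ → ℝ} (ha : ∀ i, a i ∈ A i)
  (hs1 : ∀ i, ∀ k ≤ K, ∀ t ∈ A i, ∀ b < M k, sel i k t b ∈ A i)
  (hs2 : ∀ i, ∀ k ≤ K, ∀ t ∈ A i, ∀ b < M k, |sel i k t b - t| ≤ σ k)
  (hs3 : ∀ i, ∀ k ≤ K, ∀ t ∈ A i, ∀ b < M k, ∀ b' < M k, b ≠ b' →
    ρ (k + 1) ≤ |sel i k t b - sel i k t b'|)
  (hσ : ∀ k < K, σ (k + 1) ≤ σ k) (hσ0 : ∀ k ≤ K, 0 ≤ σ k)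
  (hρ : ∀ k < K, σ (k + 1) ≤ ρ (k + 1)) (hρ0 : ∀ k ≤ K, 0 < ρ (k + 1))

/-- A constant. -/
noncomputable def C1 (K m : ℕ) : ℝ := 2 * Real.log (4 * K + 4 * m + 11)

include ha hs1 hs2 hs3 hσ hσ0 hρ hρ0 in
/-- The digits of the time between the scales number `k` and `k + 1` are live. -/
theorem tfam_liv {k s r : ℕ} (hk : k ≤ K) (hs : s ≤ J) (hr : r ≤ J)
    (hsσ : 2 ^ s * σ k ≤ 1) (hrρ : 1 ≤ 2 * (2 ^ r * ρ (k + 1))) :
    Real.log (M k) - C1 K m ≤ CH (un N K M) ((tfam J c e kk a sel he hkk hN hM).T1 r)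
      (fun ω => ((tfam J c e kk a sel he hkk hN hM).l ω, (tfam J c e kk a sel he hkk hN hM).Z ω,
        (tfam J c e kk a sel he hkk hN hM).T1 s ω)) := by
  have hlaw := un_law (K := K) hN hM
  have hp := hlaw.nonneg
  have hρk := hρ0 k hk
  have hρ0' : ∀ k ≤ K, 0 ≤ ρ (k + 1) := fun k hk => (hρ0 k hk).le
  obtain ⟨V, hV⟩ : ∃ V : Sp N K M → (((Fin m → ℝ) × (Fin m → ℝ)) × (Fin (m + 1) × ℤ) × ℕ),
    V = fun ω => ((tfam J c e kk a sel he hkk hN hM).l ω,
      (tfam J c e kk a sel he hkk hN hM).Z ω,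
        (tfam J c e kk a sel he hkk hN hM).T1 s ω) := ⟨_, rfl⟩
  obtain ⟨T1r, hT1r⟩ : ∃ T1r : Sp N K M → ℕ,
    T1r = (tfam J c e kk a sel he hkk hN hM).T1 r := ⟨_, rfl⟩
  have hVZ : ∀ ω ω', V ω = V ω' → ⌊tau c e kk a sel ω⌋ = ⌊tau c e kk a sel ω'⌋ := by
    intro ω ω' h
    rw [hV] at h
    have h1 := (Prod.ext_iff.mp (Prod.ext_iff.mp h).2).1
    exact (Prod.ext_iff.mp h1).2
  -- step a
  have ea : CH (un N K M) T1r (fun ω => (V ω, Wk k ω)) ≤ CH (un N K M) T1r V :=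
    CH_mono_cond hp fun ω ω' _ _ h => (Prod.ext_iff.mp h).1
  -- step b
  have eb := CH_le_add hp (fun ω : Sp N K M => gn ω k) T1r (fun ω => (V ω, Wk k ω))
  -- step c
  have ec : CH (un N K M) (fun ω : Sp N K M => gn ω k) (fun ω => (T1r ω, (V ω, Wk k ω))) ≤
      Real.log (4 * K + 4 * m + 11) := by
    refine (CH_mono_left hp (X' := fun ω : Sp N K M => ⌊pts a sel ω (k + 1) / ρ (k + 1)⌋)
      ?_).trans ?_
    · intro ω ω' _ _ h
      have h1 := Prod.ext_iff.mp h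
      have h2 := (Prod.ext_iff.mp (Prod.ext_iff.mp h1.2).2).2
      exact pts_sep ha hs1 hs3 hM hk hρk h2 h1.1
    · refine (CH_le_int hp hlaw.sum_one _ _ (fun _ => 2 * K + 2 * m + 5) ?_).trans
        (le_of_eq ?_)
      · intro ω ω' _ _ h
        have h1 := Prod.ext_iff.mp h
        have h2 := Prod.ext_iff.mp h1.2
        have hi : ω.1 = ω'.1 := Wk_fst h2.2
        have h3 := hVZ ω ω' h2.1
        have h4 : T1r ω = T1r ω' := h1.1
        rw [hT1r] at h4
        have h5 := tfam_fl_eq he hkk hN hM hr h3 h4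
        have h6 := Int.abs_sub_lt_one_of_floor_eq_floor h5
        rw [← mul_sub, abs_mul, abs_of_pos (by positivity : (0 : ℝ) < 2 ^ r)] at h6
        have h7 : |tau c e kk a sel ω - tau c e kk a sel ω'| ≤ 2 * ρ (k + 1) := by
          have h8 : (0 : ℝ) < 2 ^ r := by positivity
          have h9 : 2 ^ r * |tau c e kk a sel ω - tau c e kk a sel ω'| ≤
              2 ^ r * (2 * ρ (k + 1)) := by
            calc _ ≤ 1 := h6.le
              _ ≤ 2 * (2 ^ r * ρ (k + 1)) := hrρ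
              _ = _ := by ring
          exact le_of_mul_le_mul_left h9 h8
        have h10 := tau_sub (a := a) (sel := sel) (c := c) he hkk hi
        have h11 := pts_last' ha hs1 hs2 hM hσ hσ0 hρ hρ0' ω hk
        have h12 := pts_last' ha hs1 hs2 hM hσ hσ0 hρ hρ0' ω' hk
        have h13 : |pts a sel ω (K + 1) - pts a sel ω' (K + 1)| ≤ (m + 1) * (2 * ρ (k + 1)) :=
          h10.trans (mul_le_mul_of_nonneg_left h7 (by positivity))
        have h14 : |pts a sel ω (k + 1) - pts a sel ω' (k + 1)| ≤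
            (2 * K + 2 * m + 4) * ρ (k + 1) := by
          rw [abs_le] at h11 h12 h13 ⊢
          constructor <;> nlinarith [h11.1, h11.2, h12.1, h12.2, h13.1, h13.2]
        have h15 : |pts a sel ω (k + 1) / ρ (k + 1) - pts a sel ω' (k + 1) / ρ (k + 1)| ≤
            2 * K + 2 * m + 4 := by
          rw [← sub_div, abs_div, abs_of_pos hρk, div_le_iff₀ hρk]
          exact h14
        have a1 := Int.floor_le (pts a sel ω (k + 1) / ρ (k + 1))
        have a2 := Int.lt_floor_add_one (pts a sel ω (k + 1) / ρ (k + 1))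
        have a3 := Int.floor_le (pts a sel ω' (k + 1) / ρ (k + 1))
        have a4 := Int.lt_floor_add_one (pts a sel ω' (k + 1) / ρ (k + 1))
        rw [abs_le] at h15 ⊢
        push_cast
        constructor <;> linarith [h15.1, h15.2]
      · rw [Ex_const hlaw.sum_one]
        congr 1
        ring
  -- step d
  have ed := CH_le_add hp (fun ω : Sp N K M => gn ω k) V (Wk k)
  -- step e
  have ee : CH (un N K M) V (Wk k) ≤ Real.log (4 * K + 4 * m + 11) := by
    refine (CH_mono_left hp (X' := fun ω : Sp N K M => ⌊2 ^ s * tau c e kk a sel ω⌋)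
      ?_).trans ?_
    · intro ω ω' _ _ h
      have h1 := Prod.ext_iff.mp h
      have hi : ω.1 = ω'.1 := Wk_fst h1.2
      have h2 := tfam_T1_eq he hkk hN hM hs h1.1
      rw [hV]
      refine Prod.ext ?_ (Prod.ext ?_ h2.2)
      · refine Prod.ext ?_ ?_
        · funext j
          show u0 c e kk ω.1 j + (⌊tau c e kk a sel ω⌋ : ℝ) * dd e kk ω.1 j =
            u0 c e kk ω'.1 j + (⌊tau c e kk a sel ω'⌋ : ℝ) * dd e kk ω'.1 j
          rw [hi, h2.1]
        · show dd e kk ω.1 = dd e kk ω'.1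
          rw [hi]
      · show (kk ω.1, ⌊tau c e kk a sel ω⌋) = (kk ω'.1, ⌊tau c e kk a sel ω'⌋)
        rw [hi, h2.1]
    · refine (CH_le_int hp hlaw.sum_one _ _ (fun _ => 2 * K + 3) ?_).trans ?_
      · intro ω ω' _ _ h
        have hi : ω.1 = ω'.1 := Wk_fst h
        have h0 := pts_det (a := a) (sel := sel) h k le_rfl
        have h1 := pts_last ha hs1 hs2 hM hσ hσ0 ω hk
        have h2 := pts_last ha hs1 hs2 hM hσ hσ0 ω' hk
        have h3 := tau_sub' (a := a) (sel := sel) (c := c) (kk := kk) he hi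
        have h4 : |tau c e kk a sel ω - tau c e kk a sel ω'| ≤ 2 * (K + 1) * σ k := by
          refine h3.trans ?_
          rw [← h0] at h2
          rw [abs_le] at h1 h2 ⊢
          constructor <;> linarith [h1.1, h1.2, h2.1, h2.2]
        have h5 : |2 ^ s * tau c e kk a sel ω - 2 ^ s * tau c e kk a sel ω'| ≤ 2 * (K + 1) := by
          rw [← mul_sub, abs_mul, abs_of_pos (by positivity : (0 : ℝ) < 2 ^ s)]
          calc _ ≤ 2 ^ s * (2 * (K + 1) * σ k) := by gcongr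
            _ = 2 * (K + 1) * (2 ^ s * σ k) := by ring
            _ ≤ 2 * (K + 1) * 1 := by gcongr
            _ = _ := mul_one _
        have a1 := Int.floor_le (2 ^ s * tau c e kk a sel ω)
        have a2 := Int.lt_floor_add_one (2 ^ s * tau c e kk a sel ω)
        have a3 := Int.floor_le (2 ^ s * tau c e kk a sel ω')
        have a4 := Int.lt_floor_add_one (2 ^ s * tau c e kk a sel ω')
        rw [abs_le] at h5 ⊢
        push_cast
        constructor <;> linarith [h5.1, h5.2]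
      · rw [Ex_const hlaw.sum_one]
        refine Real.log_le_log (by positivity) ?_
        have : (0 : ℝ) ≤ m := Nat.cast_nonneg m
        linarith
  have e0 := CH_gn (K := K) hN hM (k := k) (by omega)
  have efin : Real.log (M k) - C1 K m ≤ CH (un N K M) T1r V := by
    unfold C1
    linarith
  rw [hT1r, hV] at efin
  exact efin

end live

end

end Pool.KMT
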