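import Pool.Agent.H73.KMAX.Mult

/-!
# The sharp power of the density for shadings with boundedly many scales
-/

set_option autoImplicit false

namespace Pool.KMT

open Finset Real MeasureTheory
open Pool.KFIN Pool.KMX
open Pool.Agent.H53.Kak (E)

variable {K m : ℕ}

/-- The binary logarithm of the inverse, rounded. -/
noncomputable def lg (x : ℝ) : ℕ := ⌊Real.logb 2 (1 / x)⌋₊

lemma lg_le {x : ℝ} (hx : 0 < x) (hx1 : x ≤ 1) : (lg x : ℝ) * Real.log 2 ≤ -Real.log x := by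
  have h2 : 0 < Real.log 2 := Real.log_pos (by norm_num)
  have h0 : 0 ≤ Real.logb 2 (1 / x) :=
    Real.logb_nonneg (by norm_num) (by rw [le_div_iff₀ hx]; linarith)
  have h1 := Nat.floor_le h0
  have h3 : Real.logb 2 (1 / x) * Real.log 2 = -Real.log x := by
    rw [Real.logb, div_mul_cancel₀ _ h2.ne', one_div, Real.log_inv]
  unfold lg
  rw [← h3]
  exact mul_le_mul_of_nonneg_right h1 h2.le

lemma lt_lg {x : ℝ} : -Real.log x < ((lg x : ℝ) + 1) * Real.log 2 := by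
  have h2 : 0 < Real.log 2 := Real.log_pos (by norm_num)
  have h1 := Nat.lt_floor_add_one (Real.logb 2 (1 / x))
  have h3 : Real.logb 2 (1 / x) * Real.log 2 = -Real.log x := by
    rw [Real.logb, div_mul_cancel₀ _ h2.ne', one_div, Real.log_inv]
  unfold lg
  rw [← h3]
  exact mul_lt_mul_of_pos_right h1 h2

lemma lg_anti {x y : ℝ} (hx : 0 < x) (hxy : x ≤ y) : lg y ≤ lg x := by
  unfold lg
  refine Nat.floor_le_floor ?_
  refine Real.logb_le_logb_of_le (by norm_num) (by have := hx.trans_le hxy; positivity) ?_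
  exact one_div_le_one_div_of_le hx hxy

lemma pow_lg {x : ℝ} (hx : 0 < x) (hx1 : x ≤ 1) : 2 ^ lg x * x ≤ 1 := by
  have h := lg_le hx hx1
  have h1 : Real.log (2 ^ lg x * x) ≤ Real.log 1 := by
    rw [Real.log_mul (by positivity) hx.ne', Real.log_pow, Real.log_one]
    linarith
  exact (Real.log_le_log_iff (by positivity) one_pos).mp h1

lemma pow_lg' {x : ℝ} (hx : 0 < x) : 1 ≤ 2 * (2 ^ lg x * x) := by
  have h := lt_lg (x := x)
  have h1 : Real.log 1 ≤ Real.log (2 * (2 ^ lg x * x)) := by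
    rw [Real.log_mul (by norm_num) (by positivity), Real.log_mul (by positivity) hx.ne',
      Real.log_pow, Real.log_one]
    linarith
  exact (Real.log_le_log_iff one_pos (by positivity)).mp h1

/-- The product of the ratios. -/
noncomputable def lam (K : ℕ) (σ ρ : ℕ → ℝ) : ℝ := ∏ k ∈ Finset.range K, σ (k + 1) / ρ (k + 1)

/-- **The sharp power of the density.** -/
theorem shadings_of_mnr (h : MNR m K) {ε : ℝ} (hε : 0 < ε) :
    ∃ b P : ℝ, 0 < b ∧ 0 ≤ P ∧ ∀ δ : ℝ, 0 < δ → δ < 1 → ∀ σ ρ : ℕ → ℝ, σ 0 = 1 →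
      ρ (K + 1) = δ → (∀ k ≤ K, ρ (k + 1) ≤ σ k) → (∀ k < K, σ (k + 1) ≤ ρ (k + 1)) →
      ∀ κ : ℝ, 0 < κ → κ ≤ 1 → ∀ (N : ℕ) (c e : Fin N → E m) (A : Fin N → Set ℝ),
      (∀ i, ‖e i‖ = 1) → (∀ i j, i ≠ j → δ ≤ ‖e i - e j‖) → (∀ i, (A i).Nonempty) →
      (∀ i, ∀ k ≤ K, DenseIn κ (σ k) (ρ (k + 1)) (A i)) →
      ∀ (μ : ℝ) (X : Set (E m)), 0 ≤ μ →
      (∀ i, ∀ t ∈ A i,
        ENNReal.ofReal (μ * δ ^ (m + 1)) ≤ volume (X ∩ Metric.closedBall (c i + t • e i) δ)) →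
      ENNReal.ofReal (b * μ * κ ^ P * δ ^ ε * (lam K σ ρ) ^ (m + 1) * (N * δ ^ m)) ≤
        volume X := by
  classical
  have hl2 : 0 < Real.log 2 := Real.log_pos (by norm_num)
  have hl2' : Real.log 2 ≤ 1 := by
    have := Real.log_two_lt_d9
    linarith
  obtain ⟨θ, hθ, J₀, hcnt⟩ := count_of_mnr h (ε := ε * Real.log 2) (by positivity)
  obtain ⟨J₂, hJ₂⟩ := exists_nat_ge ((C1 K m + (m + 5) * Real.log 2) / (θ / 2))
  obtain ⟨J₁, hJ₁⟩ : ∃ J₁ : ℕ, J₁ = max J₀ J₂ := ⟨_, rfl⟩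
  have hCG := Pool.Agent.H53.Kak.CG_pos m
  obtain ⟨G, hG⟩ : ∃ G : ℝ, G = Pool.Agent.H53.Kak.CG m * 3 ^ m := ⟨_, rfl⟩
  have hG0 : 0 < G := by rw [hG]; positivity
  obtain ⟨C3, hC3⟩ : ∃ C3 : ℝ, C3 = C2 m + (m + 1) * (K * Real.log 2) := ⟨_, rfl⟩
  have hBm : (0 : ℝ) < Bm m := by exact_mod_cast Bm_pos m
  obtain ⟨b, hb⟩ : ∃ b : ℝ, b = min (Real.exp (-C3) * (2 ^ (m + 4))⁻¹ ^ ε *
    (2 ^ (m + 4))⁻¹ ^ m / Bm m) (min ((2 ^ J₁)⁻¹ ^ (m + 1) / G) (1 / G)) := ⟨_, rfl⟩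
  have hb1 : b ≤ Real.exp (-C3) * (2 ^ (m + 4))⁻¹ ^ ε * (2 ^ (m + 4))⁻¹ ^ m / Bm m := by
    rw [hb]; exact min_le_left _ _
  have hb2 : b ≤ (2 ^ J₁)⁻¹ ^ (m + 1) / G := by
    rw [hb]; exact (min_le_right _ _).trans (min_le_left _ _)
  have hb3 : b ≤ 1 / G := by
    rw [hb]; exact (min_le_right _ _).trans (min_le_right _ _)
  have hb0 : 0 < b := by
    rw [hb]
    refine lt_min (by positivity) (lt_min (by positivity) (by positivity))
  refine ⟨b, (m + 1) / (θ / 2), hb0, by positivity, ?_⟩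
  intro δ hδ hδ1 σ ρ hσ0 hρK hρσ hσρ κ hκ hκ1 N c e A he hsep hne hA μ X hμ hX
  -- the scales
  have hσδ : ∀ k ≤ K, δ ≤ σ k := by
    have key : ∀ j, j ≤ K → δ ≤ σ (K - j) := by
      intro j
      induction j with
      | zero =>
        intro _
        rw [← hρK]
        exact hρσ K le_rfl
      | succ j ih =>
        intro hj
        have h1 := ih (by omega)
        have h2 := hρσ (K - (j + 1)) (by omega)
        have h3 := hσρ (K - (j + 1)) (by omega)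
        have e : K - (j + 1) + 1 = K - j := by omega
        rw [e] at h2 h3
        exact h1.trans (h3.trans h2)
    intro k hk
    have := key (K - k) (by omega)
    have e : K - (K - k) = k := by omega
    rwa [e] at this
  have hσ1 : ∀ k ≤ K, σ k ≤ 1 := by
    intro k
    induction k with
    | zero => intro _; exact hσ0.le
    | succ k ih =>
      intro hk
      exact (hσρ k (by omega)).trans ((hρσ k (by omega)).trans (ih (by omega)))
  have hσp : ∀ k ≤ K, 0 < σ k := fun k hk => hδ.trans_le (hσδ k hk)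
  have hρδ : ∀ k ≤ K, δ ≤ ρ (k + 1) := by
    intro k hk
    rcases Nat.lt_or_ge k K with h1 | h1
    · exact (hσδ (k + 1) h1).trans (hσρ k h1)
    · have : k = K := le_antisymm hk h1
      rw [this, hρK]
  have hρ1 : ∀ k ≤ K, ρ (k + 1) ≤ 1 := fun k hk => (hρσ k hk).trans (hσ1 k hk)
  have hρp : ∀ k ≤ K, 0 < ρ (k + 1) := fun k hk => hδ.trans_le (hρδ k hk)
  have hlam0 : 0 < lam K σ ρ := by
    unfold lam
    refine Finset.prod_pos fun k hk => ?_
    have hk' := Finset.mem_range.mp hk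
    exact div_pos (hσp _ hk') (hρp k hk'.le)
  have hlam1 : lam K σ ρ ≤ 1 := by
    unfold lam
    refine Finset.prod_le_one (fun k hk => ?_) fun k hk => ?_
    · have hk' := Finset.mem_range.mp hk
      exact (div_pos (hσp _ hk') (hρp k hk'.le)).le
    · have hk' := Finset.mem_range.mp hk
      rw [div_le_one (hρp k hk'.le)]
      exact hσρ k hk'
  rcases Nat.eq_zero_or_pos N with hN | hN
  · subst hN
    rw [Nat.cast_zero, zero_mul, mul_zero, ENNReal.ofReal_zero]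
    exact bot_le
  have hNr : (0 : ℝ) < N := by exact_mod_cast hN
  -- the resolution
  obtain ⟨J, hJ⟩ : ∃ J : ℕ, J = lg δ + (m + 4) := ⟨_, rfl⟩
  have hm2 : ((m : ℝ) + 1) ≤ 2 ^ m := by
    have : m + 1 ≤ 2 ^ m := Nat.lt_two_pow_self
    exact_mod_cast this
  have h2J : (2 : ℝ) ^ J = 2 ^ lg δ * 2 ^ (m + 4) := by rw [hJ, pow_add]
  have h2Jp : (0 : ℝ) < 2 ^ J := by positivity
  have hJup : 2 ^ J * δ ≤ 2 ^ (m + 4) := by
    rw [h2J]
    calc _ = (2 ^ lg δ * δ) * 2 ^ (m + 4) := by ring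
      _ ≤ 1 * 2 ^ (m + 4) := by gcongr; exact pow_lg hδ hδ1.le
      _ = _ := one_mul _
  have hJlo : 8 * ((m : ℝ) + 1) ≤ 2 ^ J * δ := by
    rw [h2J]
    calc 8 * ((m : ℝ) + 1) ≤ 8 * 2 ^ m := by gcongr
      _ = 1 * (8 * 2 ^ m) := (one_mul _).symm
      _ ≤ (2 * (2 ^ lg δ * δ)) * (8 * 2 ^ m) := by gcongr; exact pow_lg' hδ
      _ = _ := by rw [pow_add]; ring
  have hm0 : (0 : ℝ) ≤ m := Nat.cast_nonneg m
  have hJcell : ((m : ℝ) + 1) * (2 ^ J)⁻¹ ≤ δ := by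
    rw [← div_eq_mul_inv, div_le_iff₀ h2Jp, mul_comm δ]
    linarith
  have hδJ : ((2 : ℝ) ^ J)⁻¹ ≤ δ := by
    refine le_trans ?_ hJcell
    refine le_mul_of_one_le_left (by positivity) ?_
    linarith
  have hJinv : δ * (2 ^ (m + 4))⁻¹ ≤ (2 ^ J)⁻¹ := by
    rw [← div_eq_mul_inv, div_le_iff₀ (by positivity), ← one_div, div_mul_eq_mul_div, one_mul,
      le_div_iff₀ h2Jp, mul_comm δ]
    exact hJup
  -- the trivial bounds
  have hone : ENNReal.ofReal (μ * δ ^ (m + 1)) ≤ volume X := by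
    obtain ⟨t, ht⟩ := hne ⟨0, hN⟩
    exact (hX ⟨0, hN⟩ t ht).trans (measure_mono Set.inter_subset_left)
  have hNδ : (N : ℝ) * δ ^ m ≤ G := by
    have hF : Pool.Agent.H53.Kak.Fam δ e (univ : Finset (Fin N)) :=
      ⟨fun i _ => he i, fun i _ j _ hij => hsep i j hij⟩
    have h1 := Pool.Agent.H53.Kak.card_le_all hδ hδ1 hF
    rw [Finset.card_univ, Fintype.card_fin, ← hG] at h1
    have hδm : 0 < δ ^ m := by positivity
    calc (N : ℝ) * δ ^ m ≤ G * (δ ^ m)⁻¹ * δ ^ m := by gcongr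
      _ = G := by field_simp
  have hκP : κ ^ (((m : ℝ) + 1) / (θ / 2)) ≤ 1 :=
    Real.rpow_le_one hκ.le hκ1 (by positivity)
  have hδε : δ ^ ε ≤ 1 := Real.rpow_le_one hδ.le hδ1.le hε.le
  have hlamm : lam K σ ρ ^ (m + 1) ≤ 1 := pow_le_one₀ hlam0.le hlam1
  have hκP0 : 0 < κ ^ (((m : ℝ) + 1) / (θ / 2)) := by positivity
  have hδε0 : 0 < δ ^ ε := by positivity
  rcases Nat.lt_or_ge J J₁ with hcase | hcase
  · -- bounded resolution
    refine le_trans (ENNReal.ofReal_le_ofReal ?_) hone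
    have h1 : ((2 : ℝ) ^ J₁)⁻¹ ≤ (2 ^ J)⁻¹ := by
      refine inv_anti₀ h2Jp ?_
      exact pow_le_pow_right₀ (by norm_num) hcase.le
    calc b * μ * κ ^ (((m : ℝ) + 1) / (θ / 2)) * δ ^ ε * lam K σ ρ ^ (m + 1) * (N * δ ^ m) ≤
        b * μ * 1 * 1 * 1 * G := by gcongr
      _ = b * G * μ := by ring
      _ ≤ ((2 ^ J₁)⁻¹ ^ (m + 1) / G) * G * μ := by gcongr
      _ = μ * (2 ^ J₁)⁻¹ ^ (m + 1) := by field_simp
      _ ≤ μ * δ ^ (m + 1) := by
          refine mul_le_mul_of_nonneg_left ?_ hμ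
          exact pow_le_pow_left₀ (by positivity) (h1.trans hδJ) _
  rcases lt_or_ge κ (δ ^ (θ / 2)) with hκδ | hκδ
  · -- small density between the scales
    refine le_trans (ENNReal.ofReal_le_ofReal ?_) hone
    have h1 : κ ^ (((m : ℝ) + 1) / (θ / 2)) ≤ δ ^ (m + 1) := by
      calc κ ^ (((m : ℝ) + 1) / (θ / 2)) ≤ (δ ^ (θ / 2)) ^ (((m : ℝ) + 1) / (θ / 2)) :=
            Real.rpow_le_rpow hκ.le hκδ.le (by positivity)
        _ = δ ^ ((m : ℝ) + 1) := by
            rw [← Real.rpow_mul hδ.le]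
            congr 1
            field_simp
        _ = δ ^ (m + 1) := by
            have : ((m : ℝ) + 1) = ((m + 1 : ℕ) : ℝ) := by push_cast; ring
            rw [this, Real.rpow_natCast]
    calc b * μ * κ ^ (((m : ℝ) + 1) / (θ / 2)) * δ ^ ε * lam K σ ρ ^ (m + 1) * (N * δ ^ m) ≤
        b * μ * δ ^ (m + 1) * 1 * 1 * G := by gcongr
      _ = (b * G) * (μ * δ ^ (m + 1)) := by ring
      _ ≤ ((1 / G) * G) * (μ * δ ^ (m + 1)) := by gcongr
      _ = _ := by field_simp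
  -- the main case
  have hJJ₀ : J₀ ≤ J := by rw [hJ₁] at hcase; exact (le_max_left _ _).trans hcase
  have hJJ₂ : J₂ ≤ J := by rw [hJ₁] at hcase; exact (le_max_right _ _).trans hcase
  have hlogJ : C1 K m + (m + 5) * Real.log 2 ≤ θ / 2 * J := by
    have h1 : (J₂ : ℝ) ≤ J := by exact_mod_cast hJJ₂
    have h2 := (div_le_iff₀ (by linarith)).mp (hJ₂.trans h1)
    rw [mul_comm (θ / 2)]
    exact h2
  have hlogδ : -Real.log δ ≤ J := by
    have h1 := lt_lg (x := δ)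
    have h2 : ((lg δ : ℝ) + 1) ≤ J := by
      rw [hJ]
      push_cast
      linarith
    calc -Real.log δ ≤ ((lg δ : ℝ) + 1) * Real.log 2 := h1.le
      _ ≤ J * 1 := by gcongr
      _ = J := mul_one _
  have hlogκ : -Real.log κ ≤ θ / 2 * J := by
    have h1 : Real.log (δ ^ (θ / 2)) ≤ Real.log κ := Real.log_le_log (by positivity) hκδ
    rw [Real.log_rpow hδ] at h1
    have h2 : θ / 2 * (-Real.log δ) ≤ θ / 2 * J := mul_le_mul_of_nonneg_left hlogδ (by linarith)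
    linarith
  have hex : ∀ i : Fin N, ∃ k : Fin (m + 1), ∀ l, |e i l| ≤ |e i k| := fun i =>
    Finite.exists_max fun l => |e i l|
  choose kk hkk using hex
  choose a ha using hne
  have hsel : ∀ (i : Fin N) (k : ℕ) (t : ℝ), ∃ f : ℕ → ℝ, k ≤ K → t ∈ A i →
      (∀ b < Mk κ σ ρ k, f b ∈ A i) ∧ (∀ b < Mk κ σ ρ k, |f b - t| ≤ σ k) ∧
      (∀ b < Mk κ σ ρ k, ∀ b' < Mk κ σ ρ k, b ≠ b' → ρ (k + 1) ≤ |f b - f b'|) := by
    intro i k t
    by_cases hkt : k ≤ K ∧ t ∈ A i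
    · obtain ⟨f, hf⟩ := exists_sel (hA i k hkt.1) hkt.2
        (div_pos (mul_pos hκ (hσp k hkt.1)) (hρp k hkt.1))
      exact ⟨f, fun _ _ => hf⟩
    · exact ⟨fun _ => 0, fun h1 h2 => absurd ⟨h1, h2⟩ hkt⟩
  choose sel hsel using hsel
  have hM := Mk_pos κ σ ρ
  have hMlog : ∀ k ≤ K, Real.log κ + Real.log (σ k) - Real.log (ρ (k + 1)) ≤
      Real.log (Mk κ σ ρ k) := by
    intro k hk
    have h1 := Mk_ge κ σ ρ k
    have h2 : 0 < κ * σ k / ρ (k + 1) := div_pos (mul_pos hκ (hσp k hk)) (hρp k hk)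
    have h3 := Real.log_le_log h2 h1
    rwa [Real.log_div (mul_pos hκ (hσp k hk)).ne' (hρp k hk).ne',
      Real.log_mul hκ.ne' (hσp k hk).ne'] at h3
  have hJlog : (J : ℝ) * Real.log 2 ≤ -Real.log δ + (m + 4) * Real.log 2 := by
    have h1 := lg_le hδ hδ1.le
    rw [hJ]
    push_cast
    linarith
  have hC10 : 0 ≤ C1 K m := by
    unfold C1
    have : 0 ≤ Real.log (4 * K + 4 * m + 11) := Real.log_nonneg (by
      have : (0 : ℝ) ≤ K := Nat.cast_nonneg K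
      linarith)
    linarith
  have hml : 0 ≤ (m : ℝ) * Real.log 2 := by positivity
  have hmain := hcnt J hJJ₀ N (Mk κ σ ρ) c e kk a sel he hkk hN hM A σ ρ
    (fun k => lg (ρ k)) (fun k => lg (σ k)) δ ha
    (fun i k hk t ht => (hsel i k t hk ht).1) (fun i k hk t ht => (hsel i k t hk ht).2.1)
    (fun i k hk t ht => (hsel i k t hk ht).2.2)
    (fun k hk => (hσρ k hk).trans (hρσ k hk.le)) (fun k hk => (hσp k hk).le) hσρ hρp
    (by linarith) hsep (by
      show lg (σ 0) = 0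
      rw [hσ0]
      unfold lg
      simp) (by
      show lg (σ K) ≤ J
      have := lg_anti hδ (hσδ K le_rfl)
      omega) (by
      intro k hk
      exact ⟨lg_anti (hρp k hk.le) (hρσ k hk.le), lg_anti (hσp (k + 1) hk) (hσρ k hk)⟩)
    (fun k hk => pow_lg (hσp k hk) (hσ1 k hk)) (fun k hk => pow_lg' (hρp k hk.le)) (by
      rw [hρK]
      have : (1 : ℝ) ≤ m + 1 := by linarith
      linarith) (by
      intro k hk
      have h1 := hMlog k hk.le
      have h2 := lg_le (hρp k hk.le) (hρ1 k hk.le)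
      have h3 := lt_lg (x := σ k)
      show ((lg (ρ (k + 1)) : ℝ) - lg (σ k)) * Real.log 2 - θ * J ≤ _
      linarith) (by
      have h1 := hMlog K le_rfl
      rw [hρK] at h1
      have h3 := lt_lg (x := σ K)
      show ((J : ℝ) - lg (σ K)) * Real.log 2 - θ * J ≤ _
      linarith)
  obtain ⟨Q, hQ⟩ : ∃ Q : Finset (Fin (m + 1) → ℤ),
    Q = univ.image (Qp (K := K) (M := Mk κ σ ρ) J c e a sel) := ⟨_, rfl⟩
  rw [← hQ] at hmain
  have hvol := vol_mult (μ := μ * δ ^ (m + 1)) hJup (by positivity) Q X (by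
    intro q hq
    rw [hQ] at hq
    obtain ⟨ω, -, hω⟩ := Finset.mem_image.mp hq
    refine ⟨c ω.1 + pts a sel ω (K + 1) • e ω.1, hω, hX ω.1 _ ?_⟩
    exact pts_mem ha (fun i k hk t ht => (hsel i k t hk ht).1) hM ω (K + 1) le_rfl)
  refine le_trans (ENNReal.ofReal_le_ofReal ?_) hvol
  have hQpos : (0 : ℝ) < Q.card := by
    have hne' : Nonempty (Sp N K (Mk κ σ ρ)) := ⟨⟨⟨0, hN⟩, fun k => ⟨0, hM k⟩⟩⟩
    have : 0 < Q.card := by
      rw [hQ]
      exact Finset.card_pos.mpr (Finset.univ_nonempty.image _)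
    exact_mod_cast this
  -- sum over the runs
  have hsum : (∑ k ∈ Finset.range K, ((lg (σ (k + 1)) : ℝ) - lg (ρ (k + 1)))) * Real.log 2 ≤
      -Real.log (lam K σ ρ) + K * Real.log 2 := by
    have h1 : Real.log (lam K σ ρ) =
        ∑ k ∈ Finset.range K, (Real.log (σ (k + 1)) - Real.log (ρ (k + 1))) := by
      unfold lam
      rw [Real.log_prod]
      · refine Finset.sum_congr rfl fun k hk => ?_
        have hk' := Finset.mem_range.mp hk
        rw [Real.log_div (hσp _ hk').ne' (hρp k hk'.le).ne']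
      · intro k hk
        have hk' := Finset.mem_range.mp hk
        exact (div_pos (hσp _ hk') (hρp k hk'.le)).ne'
    have h2 : (K : ℝ) * Real.log 2 = ∑ _k ∈ Finset.range K, Real.log 2 := by
      rw [Finset.sum_const, Finset.card_range, nsmul_eq_mul]
    rw [h1, h2, Finset.sum_mul, ← Finset.sum_neg_distrib, ← Finset.sum_add_distrib]
    refine Finset.sum_le_sum fun k hk => ?_
    have hk' := Finset.mem_range.mp hk
    have h3 := lg_le (hσp (k + 1) hk') (hσ1 (k + 1) hk')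
    have h4 := lt_lg (x := ρ (k + 1))
    linarith
  have hlog : Real.log ((N : ℝ) * 2 ^ J * lam K σ ρ ^ (m + 1)) ≤
      Real.log (Q.card * Real.exp C3 * ((2 : ℝ) ^ J) ^ ε) := by
    rw [Real.log_mul (by positivity) (by positivity), Real.log_mul (by positivity) (by positivity),
      Real.log_mul (by positivity) (by positivity), Real.log_mul (by positivity) (by positivity),
      Real.log_exp, Real.log_rpow (by positivity), Real.log_pow, Real.log_pow, hC3]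
    have h1 : ((m : ℝ) + 1) * ((∑ k ∈ Finset.range K, ((lg (σ (k + 1)) : ℝ) -
        lg (ρ (k + 1)))) * Real.log 2) ≤
        ((m : ℝ) + 1) * (-Real.log (lam K σ ρ) + K * Real.log 2) :=
      mul_le_mul_of_nonneg_left hsum (by positivity)
    push_cast
    have h2 : ε * (J * Real.log 2) = ε * Real.log 2 * J := by ring
    have h3 : ((m : ℝ) + 1) * (-Real.log (lam K σ ρ) + K * Real.log 2) =
      -(((m : ℝ) + 1) * Real.log (lam K σ ρ)) + ((m : ℝ) + 1) * (K * Real.log 2) := by ring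
    linarith
  have hfin := (Real.log_le_log_iff (by positivity) (by positivity)).mp hlog
  have e1 : (Real.exp (-C3)) * Real.exp C3 = 1 := by rw [← Real.exp_add]; simp
  have e2 : (((2 : ℝ) ^ J)⁻¹) ^ ε * ((2 : ℝ) ^ J) ^ ε = 1 := by
    rw [← Real.mul_rpow (by positivity) (by positivity), inv_mul_cancel₀ h2Jp.ne', Real.one_rpow]
  calc b * μ * κ ^ (((m : ℝ) + 1) / (θ / 2)) * δ ^ ε * lam K σ ρ ^ (m + 1) * (N * δ ^ m) ≤
      (Real.exp (-C3) * (2 ^ (m + 4))⁻¹ ^ ε * (2 ^ (m + 4))⁻¹ ^ m / Bm m) * μ * 1 * δ ^ ε *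
        lam K σ ρ ^ (m + 1) * (N * δ ^ m) := by gcongr
    _ = μ / Bm m * (Real.exp (-C3) * (δ * (2 ^ (m + 4))⁻¹) ^ ε * (δ * (2 ^ (m + 4))⁻¹) ^ m *
        (N * lam K σ ρ ^ (m + 1))) := by
        rw [Real.mul_rpow hδ.le (by positivity), mul_pow δ]
        ring
    _ ≤ μ / Bm m * (Real.exp (-C3) * ((2 ^ J)⁻¹) ^ ε * ((2 ^ J)⁻¹) ^ m *
        (N * lam K σ ρ ^ (m + 1))) := by
        gcongr
    _ = μ / Bm m * (Real.exp (-C3) * ((2 ^ J)⁻¹) ^ ε * ((2 ^ J)⁻¹) ^ (m + 1) *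
        (N * 2 ^ J * lam K σ ρ ^ (m + 1))) := by
        rw [pow_succ ((2 ^ J : ℝ)⁻¹) m]
        field_simp
    _ ≤ μ / Bm m * (Real.exp (-C3) * ((2 ^ J)⁻¹) ^ ε * ((2 ^ J)⁻¹) ^ (m + 1) *
        (Q.card * Real.exp C3 * ((2 : ℝ) ^ J) ^ ε)) := by gcongr
    _ = (Real.exp (-C3) * Real.exp C3) * ((((2 : ℝ) ^ J)⁻¹) ^ ε * ((2 : ℝ) ^ J) ^ ε) *
        (μ / Bm m * (Q.card * ((2 ^ J)⁻¹) ^ (m + 1))) := by ring
    _ = μ / Bm m * (Q.card * ((2 ^ J)⁻¹) ^ (m + 1)) := by rw [e1, e2]; ring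
    _ ≤ μ / Bm m * (Q.card * δ ^ (m + 1)) := by gcongr
    _ = Q.card * (μ * δ ^ (m + 1)) / Bm m := by ring

end Pool.KMT
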