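import Pool.Agent.H73.KMAX.Vol

/-!
# Sets which have a positive portion in the neighbourhoods of the points
-/

set_option autoImplicit false

namespace Pool.KMT

open Finset Real MeasureTheory
open Pool.Agent.H53.Kak (E cell)

variable {m : ℕ}

/-- A bound for the multiplicity. -/
def Bm (m : ℕ) : ℕ := (2 ^ (m + 6)) ^ (m + 1)

lemma Bm_pos (m : ℕ) : 0 < Bm m := by
  unfold Bm
  positivity

open Classical in
/-- At most `Bm m` points of different cells are near a given point. -/
lemma mult_le {J : ℕ} {δ : ℝ} (hJ : 2 ^ J * δ ≤ 2 ^ (m + 4)) (Q : Finset (Fin (m + 1) → ℤ))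
    (y : (Fin (m + 1) → ℤ) → E m) (hy : ∀ q ∈ Q, (fun l => ⌊2 ^ J * y q l⌋) = q) (x : E m) :
    (Q.filter fun q => x ∈ Metric.closedBall (y q) δ).card ≤ Bm m := by
  have h2J : (0 : ℝ) < 2 ^ J := by positivity
  obtain ⟨R, hR⟩ : ∃ R : ℤ, R = 2 ^ (m + 4) + 1 := ⟨_, rfl⟩
  obtain ⟨f, hf⟩ : ∃ f : Fin (m + 1) → ℤ, f = fun l => ⌊2 ^ J * x l⌋ := ⟨_, rfl⟩
  have hsub : (Q.filter fun q => x ∈ Metric.closedBall (y q) δ) ⊆
      Fintype.piFinset fun l => Finset.Icc (f l - R) (f l + R) := by
    intro q hq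
    obtain ⟨hq1, hq2⟩ := Finset.mem_filter.mp hq
    rw [Fintype.mem_piFinset]
    intro l
    rw [Metric.mem_closedBall, dist_eq_norm] at hq2
    have h1 : |x l - y q l| ≤ δ := by
      have := PiLp.norm_apply_le (x - y q) l
      rw [PiLp.sub_apply, Real.norm_eq_abs] at this
      exact this.trans hq2
    have h2 : |2 ^ J * x l - 2 ^ J * y q l| ≤ 2 ^ (m + 4) := by
      rw [← mul_sub, abs_mul, abs_of_pos h2J]
      exact (mul_le_mul_of_nonneg_left h1 h2J.le).trans hJ
    have h3 : q l = ⌊2 ^ J * y q l⌋ := by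
      conv_lhs => rw [← hy q hq1]
    have h4 : f l = ⌊2 ^ J * x l⌋ := by rw [hf]
    have a1 := Int.floor_le (2 ^ J * x l)
    have a2 := Int.lt_floor_add_one (2 ^ J * x l)
    have a3 := Int.floor_le (2 ^ J * y q l)
    have a4 := Int.lt_floor_add_one (2 ^ J * y q l)
    rw [← h4] at a1 a2
    rw [← h3] at a3 a4
    rw [abs_le] at h2
    have b1 : ((f l - R : ℤ) : ℝ) ≤ (q l : ℝ) := by
      rw [hR]
      push_cast
      linarith [h2.1, h2.2]
    have b2 : ((q l : ℤ) : ℝ) ≤ ((f l + R : ℤ) : ℝ) := by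
      rw [hR]
      push_cast
      linarith [h2.1, h2.2]
    rw [Finset.mem_Icc]
    exact ⟨Int.cast_le.mp b1, Int.cast_le.mp b2⟩
  refine (Finset.card_le_card hsub).trans ?_
  rw [Fintype.card_piFinset]
  have h5 : ∀ l : Fin (m + 1), (Finset.Icc (f l - R) (f l + R)).card ≤ 2 ^ (m + 6) := by
    intro l
    rw [Int.card_Icc]
    have h6 : f l + R + 1 - (f l - R) = 2 * R + 1 := by ring
    rw [h6]
    have h7 : 2 * R + 1 ≤ ((2 ^ (m + 6) : ℕ) : ℤ) := by
      rw [hR]
      push_cast
      have : (1 : ℤ) ≤ 2 ^ m := one_le_pow₀ (by norm_num)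
      have e4 : (2 : ℤ) ^ (m + 4) = 2 ^ m * 16 := by rw [pow_add]; norm_num
      have e6 : (2 : ℤ) ^ (m + 6) = 2 ^ m * 64 := by rw [pow_add]; norm_num
      rw [e4, e6]
      linarith
    exact Int.toNat_le.mpr h7
  calc ∏ l : Fin (m + 1), (Finset.Icc (f l - R) (f l + R)).card ≤
      ∏ _l : Fin (m + 1), 2 ^ (m + 6) := Finset.prod_le_prod' fun l _ => h5 l
    _ = Bm m := by
        rw [Finset.prod_const, Finset.card_univ, Fintype.card_fin]
        rfl

/-- The volume of a set which has a portion in the balls around points of different cells. -/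
lemma vol_mult {J : ℕ} {δ μ : ℝ} (hJ : 2 ^ J * δ ≤ 2 ^ (m + 4)) (hμ : 0 ≤ μ)
    (Q : Finset (Fin (m + 1) → ℤ)) (X : Set (E m))
    (hQ : ∀ q ∈ Q, ∃ y : E m, (fun l => ⌊2 ^ J * y l⌋) = q ∧
      ENNReal.ofReal μ ≤ volume (X ∩ Metric.closedBall y δ)) :
    ENNReal.ofReal (Q.card * μ / Bm m) ≤ volume X := by
  classical
  have hB : (0 : ℝ) < Bm m := by exact_mod_cast Bm_pos m
  have hex : ∀ q : Fin (m + 1) → ℤ, ∃ y : E m, q ∈ Q → (fun l => ⌊2 ^ J * y l⌋) = q ∧
      ENNReal.ofReal μ ≤ volume (X ∩ Metric.closedBall y δ) := by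
    intro q
    by_cases hq : q ∈ Q
    · obtain ⟨y, hy⟩ := hQ q hq
      exact ⟨y, fun _ => hy⟩
    · exact ⟨0, fun h => absurd h hq⟩
  choose y hy using hex
  have h1 : ENNReal.ofReal (Q.card * μ) ≤ (Bm m : ENNReal) * volume X := by
    calc ENNReal.ofReal (Q.card * μ) = ∑ _q ∈ Q, ENNReal.ofReal μ := by
          rw [Finset.sum_const, nsmul_eq_mul, ENNReal.ofReal_mul (by positivity),
            ENNReal.ofReal_natCast]
      _ ≤ ∑ q ∈ Q, volume (X ∩ Metric.closedBall (y q) δ) :=
          Finset.sum_le_sum fun q hq => (hy q hq).2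
      _ = ∑ q ∈ Q, ∫⁻ x in X, (Metric.closedBall (y q) δ).indicator 1 x := by
          refine Finset.sum_congr rfl fun q _ => ?_
          rw [lintegral_indicator_one Metric.isClosed_closedBall.measurableSet,
            Measure.restrict_apply Metric.isClosed_closedBall.measurableSet, Set.inter_comm]
      _ = ∫⁻ x in X, ∑ q ∈ Q, (Metric.closedBall (y q) δ).indicator 1 x := by
          rw [lintegral_finsetSum]
          intro q _
          exact measurable_one.indicator Metric.isClosed_closedBall.measurableSet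
      _ ≤ ∫⁻ _x in X, (Bm m : ENNReal) := by
          refine lintegral_mono fun x => ?_
          have h2 := mult_le hJ Q y (fun q hq => (hy q hq).1) x
          have h3 : (∑ q ∈ Q, (Metric.closedBall (y q) δ).indicator (1 : E m → ENNReal) x) =
              ((Q.filter fun q => x ∈ Metric.closedBall (y q) δ).card : ENNReal) := by
            rw [Finset.card_filter]
            push_cast
            refine Finset.sum_congr rfl fun q _ => ?_
            rw [Set.indicator_apply]
            rfl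
          rw [h3]
          refine Nat.cast_le.mpr ?_
          convert h2
      _ = (Bm m : ENNReal) * volume X := setLIntegral_const _ _
  have h4 : ENNReal.ofReal (Q.card * μ / Bm m) * (Bm m : ENNReal) = ENNReal.ofReal (Q.card * μ) := by
    rw [← ENNReal.ofReal_natCast (Bm m), ← ENNReal.ofReal_mul (by positivity)]
    congr 1
    field_simp
  have h5 : (Bm m : ENNReal) ≠ 0 := by exact_mod_cast (Bm_pos m).ne'
  have h6 : (Bm m : ENNReal) ≠ ⊤ := ENNReal.natCast_ne_top _
  have h7 : ENNReal.ofReal (Q.card * μ / Bm m) * (Bm m : ENNReal) ≤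
      volume X * (Bm m : ENNReal) := by
    rw [h4, mul_comm (volume X)]
    exact h1
  exact (ENNReal.mul_le_mul_iff_left h5 h6).mp h7

end Pool.KMT
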