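import Pool.Agent.H73.KMAX.Cnt

/-!
# Volumes and choices
-/

set_option autoImplicit false

namespace Pool.KMT

open Finset Real MeasureTheory
open Pool.Agent.H53.Kak (E cell)

variable {N K m : ℕ}

/-- Near each of its points, up to the distance `σ`, the set `A` has at least `κ σ / ρ` points of
which any two have distance at least `ρ`. -/
def DenseIn (κ σ ρ : ℝ) (A : Set ℝ) : Prop :=
  ∀ t ∈ A, ∃ F : Finset ℝ, (∀ x ∈ F, x ∈ A ∧ |x - t| ≤ σ) ∧
    (∀ x ∈ F, ∀ y ∈ F, x ≠ y → ρ ≤ |x - y|) ∧ κ * σ / ρ ≤ F.card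

/-- The number of choices. -/
noncomputable def Mk (κ : ℝ) (σ ρ : ℕ → ℝ) (k : ℕ) : ℕ := max 1 ⌈κ * σ k / ρ (k + 1)⌉₊

lemma Mk_pos (κ : ℝ) (σ ρ : ℕ → ℝ) (k : ℕ) : 0 < Mk κ σ ρ k := by
  unfold Mk
  exact lt_of_lt_of_le one_pos (le_max_left _ _)

lemma Mk_ge (κ : ℝ) (σ ρ : ℕ → ℝ) (k : ℕ) : κ * σ k / ρ (k + 1) ≤ Mk κ σ ρ k := by
  unfold Mk
  push_cast
  exact (Nat.le_ceil _).trans (le_max_right _ _)

/-- The choices of points. -/
lemma exists_sel {κ σ ρ : ℝ} {A : Set ℝ} (h : DenseIn κ σ ρ A) {t : ℝ} (ht : t ∈ A)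
    (hpos : 0 < κ * σ / ρ) :
    ∃ f : ℕ → ℝ, (∀ b < max 1 ⌈κ * σ / ρ⌉₊, f b ∈ A) ∧
      (∀ b < max 1 ⌈κ * σ / ρ⌉₊, |f b - t| ≤ σ) ∧
      (∀ b < max 1 ⌈κ * σ / ρ⌉₊, ∀ b' < max 1 ⌈κ * σ / ρ⌉₊, b ≠ b' → ρ ≤ |f b - f b'|) := by
  obtain ⟨F, h1, h2, h3⟩ := h t ht
  have hF : 0 < F.card := by
    have : (0 : ℝ) < F.card := hpos.trans_le h3
    exact_mod_cast this
  have hM : max 1 ⌈κ * σ / ρ⌉₊ ≤ F.card := max_le hF (Nat.ceil_le.mpr h3)
  refine ⟨fun b => if h : b < F.card then F.orderEmbOfFin rfl ⟨b, h⟩ else 0, ?_, ?_, ?_⟩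
  · intro b hb
    have hb' : b < F.card := hb.trans_le hM
    simp only [dif_pos hb']
    exact (h1 _ (F.orderEmbOfFin_mem rfl _)).1
  · intro b hb
    have hb' : b < F.card := hb.trans_le hM
    simp only [dif_pos hb']
    exact (h1 _ (F.orderEmbOfFin_mem rfl _)).2
  · intro b hb b' hb' hne
    have hb1 : b < F.card := hb.trans_le hM
    have hb2 : b' < F.card := hb'.trans_le hM
    simp only [dif_pos hb1, dif_pos hb2]
    refine h2 _ (F.orderEmbOfFin_mem rfl _) _ (F.orderEmbOfFin_mem rfl _) ?_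
    intro h
    have := (F.orderEmbOfFin rfl).injective h
    rw [Fin.mk.injEq] at this
    exact hne this

/-! ### Volumes -/

lemma volume_cell {h : ℝ} (hh : 0 < h) (k : Fin (m + 1) → ℤ) :
    volume (cell h k : Set (E m)) = ENNReal.ofReal (h ^ (m + 1)) := by
  have e1 : (cell h k : Set (E m)) = (MeasurableEquiv.toLp 2 (Fin (m + 1) → ℝ)).symm ⁻¹'
      (Set.pi Set.univ fun i => Set.Ico (h * k i) (h * (k i + 1))) := by
    ext x
    simp only [cell, Set.mem_ofPred_eq, Set.mem_preimage, Set.mem_pi, Set.mem_univ, forall_true_left]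
    refine forall_congr' fun i => ?_
    have : (MeasurableEquiv.toLp 2 (Fin (m + 1) → ℝ)).symm x i = x i := rfl
    rw [this, Int.floor_eq_iff, Set.mem_Ico, le_div_iff₀ hh, div_lt_iff₀ hh]
    constructor
    · rintro ⟨a, b⟩
      constructor <;> linarith
    · rintro ⟨a, b⟩
      constructor <;> linarith
  rw [e1, (EuclideanSpace.volume_preserving_symm_measurableEquiv_toLp
    (Fin (m + 1))).measure_preimage (MeasurableSet.univ_pi fun _ => measurableSet_Ico).nullMeasurableSet,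
    volume_pi, Measure.pi_pi]
  simp only [Real.volume_Ico]
  have e2 : ∀ i : Fin (m + 1), ENNReal.ofReal (h * ((k i : ℝ) + 1) - h * k i) =
      ENNReal.ofReal h := by
    intro i
    congr 1
    ring
  rw [Finset.prod_congr rfl fun i _ => e2 i, Finset.prod_const, Finset.card_univ,
    Fintype.card_fin, ← ENNReal.ofReal_pow hh.le]

/-- Cells of points of a set are contained in its neighbourhood. -/
lemma cell_sub {J : ℕ} {δ : ℝ} (hJ : (m + 1) * (2 ^ J)⁻¹ ≤ δ) (y : E m) :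
    (cell ((2 : ℝ) ^ J)⁻¹ (fun l => ⌊2 ^ J * y l⌋) : Set (E m)) ⊆ Metric.closedBall y δ := by
  intro x hx
  have h2J : (0 : ℝ) < 2 ^ J := by positivity
  rw [Metric.mem_closedBall, dist_eq_norm]
  refine (Pool.Agent.H53.Kak.norm_le_of_coord (a := (2 ^ J)⁻¹) (by positivity)
    fun l => ?_).trans hJ
  have h1 : ⌊x l / ((2 : ℝ) ^ J)⁻¹⌋ = ⌊2 ^ J * y l⌋ := hx l
  rw [div_inv_eq_mul] at h1
  have h2 := Int.abs_sub_lt_one_of_floor_eq_floor h1
  have h3 : x l * 2 ^ J - 2 ^ J * y l = 2 ^ J * (x l - y l) := by ring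
  rw [h3, abs_mul, abs_of_pos h2J] at h2
  rw [PiLp.sub_apply, ← one_div, le_div_iff₀ h2J, mul_comm]
  exact h2.le

open Classical in
/-- The volume of a neighbourhood is at least the number of cells times the volume of a cell. -/
lemma vol_cells {J : ℕ} {δ : ℝ} (hJ : (m + 1) * (2 ^ J)⁻¹ ≤ δ) (Q : Finset (Fin (m + 1) → ℤ))
    (U : Set (E m)) (hQ : ∀ q ∈ Q, ∃ y : E m, (fun l => ⌊2 ^ J * y l⌋) = q ∧
      Metric.closedBall y δ ⊆ U) :
    ENNReal.ofReal (Q.card * ((2 ^ J)⁻¹) ^ (m + 1)) ≤ volume U := by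
  have h2J : (0 : ℝ) < (2 ^ J)⁻¹ := by positivity
  calc ENNReal.ofReal (Q.card * ((2 ^ J)⁻¹) ^ (m + 1)) =
      ∑ q ∈ Q, volume (cell ((2 : ℝ) ^ J)⁻¹ q : Set (E m)) := by
        rw [Finset.sum_congr rfl fun q _ => volume_cell h2J q, Finset.sum_const, nsmul_eq_mul,
          ENNReal.ofReal_mul (by positivity), ENNReal.ofReal_natCast]
    _ = volume (⋃ q ∈ Q, (cell ((2 : ℝ) ^ J)⁻¹ q : Set (E m))) := by
        rw [measure_biUnion_finset]
        · intro q _ q' _ hne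
          exact Pool.Agent.H53.Kak.cell_disjoint _ hne
        · intro q _
          exact Pool.Agent.H53.Kak.measurableSet_cell _ q
    _ ≤ volume U := by
        refine measure_mono (Set.iUnion₂_subset fun q hq => ?_)
        obtain ⟨y, hy, hU⟩ := hQ q hq
        rw [← hy]
        exact (cell_sub hJ y).trans hU

end Pool.KMT
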